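import Pool.Agent.H14.GW.ASM
import Pool.Agent.H18.GW.BAS
import Pool.Agent.H18.GW.TRN
import Pool.Agent.H41.GW.CB
import Pool.Agent.H41.GW.VAL
import Pool.Agent.H36.GW.CNT
import Pool.Agent.H36.GW.IDN
import Pool.Agent.H36.GW.LIN
import Pool.Agent.H36.GW.PSI
import Pool.Agent.H20.GWB.FIN
import Pool.Agent.H2.GW.GRP
import Pool.Agent.H2.GW.NUM
import Pool.Agent.H34.GW.HOR
import Pool.Agent.H62.GWB.POL
import Pool.Agent.H10.GW.SLO
import Pool.Agent.H71.GW.UNI5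
import Pool.Agent.H74.GW.CA
import Pool.Agent.H74.GW.LV1

/-!
# Lattice Golomb-Welch, the classes `0` and `1`: assembly
-/

set_option autoImplicit false

namespace Pool.Agent.H71.GW

theorem main01' (hCA : T_POL → T_BAS → T_TRN → T_PSI → T_SLO → T_SUP → T_ZER → T_CA)
    (hLV : T_POL → T_BAS → T_TRN → T_PSI → T_SUP → T_ZER → T_CA → T_CB → T_LV1) : Main01 := by
  have hPOL : T_POL := Pool.Agent.H62.GWB.pol
  have hLST : T_LST := Pool.Agent.H62.GWB.lst
  have hZER : T_ZER := Pool.Agent.H62.GWB.zer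
  have hBAS : T_BAS := Pool.Agent.H18.GW.bas
  have hTRN : T_TRN := Pool.Agent.H18.GW.trn hPOL hBAS
  have hPSI : T_PSI := Pool.Agent.H36.GW.PSI.psi hBAS
  have hSLO : T_SLO := Pool.Agent.H10.GW.slo
  have hSUP : T_SUP := Pool.Agent.H10.GW.sup
  have hCNT : T_CNT := Pool.Agent.H36.GW.CNT.cnt
  have hLIN : T_LIN := Pool.Agent.H36.GW.LIN.lin
  have hIDN : T_IDN := Pool.Agent.H36.GW.IDN.idn hCNT hBAS
  have hVAL : T_VAL := Pool.Agent.H41.GW.val hLST hBAS hZER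
  have hA : T_CA := hCA hPOL hBAS hTRN hPSI hSLO hSUP hZER
  have hB : T_CB := Pool.Agent.H41.GW.cb hPOL hBAS hTRN hPSI hSLO hSUP hZER
  have hL : T_LV1 := hLV hPOL hBAS hTRN hPSI hSUP hZER hA hB
  have hASM : T_ASM := Pool.Agent.H14.GW.Asm.asm hCNT hLST hL hLIN hVAL hIDN
  exact Pool.Agent.H20.GWB.fin Pool.Agent.H2.GW.grp hASM Pool.Agent.H34.GW.hor
    Pool.Agent.H2.GW.num (uni hPOL hLST)

/-- no perfect lattice code in the classes `0` and `1` -/
theorem main01 : Main01 := main01' Pool.Agent.H74.GW.ca Pool.Agent.H74.GW.Lv.lv1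

end Pool.Agent.H71.GW
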