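import Pool.Agent.H21.GS.Main

/-!
# Kernel vectors with few odd entries
-/

set_option autoImplicit false
set_option linter.unusedSectionVars false

open Finset Pool.Agent.H23.GW Pool.Agent.H23.GC Pool.Agent.H23.GF Pool.Agent.H21.GS
open scoped Classical

namespace Pool.Agent.H71.GW.Odd

variable {ι : Type} [Fintype ι] {G : Type} [AddCommGroup G] {s : ℕ} {ev : (ι → ℤ) →+ G}

lemma two_zero (h : PC s ev) {x : G} (hx : x + x = 0) : x = 0 := by
  obtain ⟨d, ⟨hd, hd'⟩, hu⟩ := h x
  have h1 : ev (-d) = x := by
    rw [map_neg, hd']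
    exact neg_eq_of_add_eq_zero_left hx
  have h2 := hu (-d) ⟨by rw [Pool.Agent.H2.GC.nrm_neg]; exact hd, h1⟩
  have h3 : d = 0 := by
    funext i
    have := congrFun h2 i
    simp only [Pi.neg_apply, Pi.zero_apply] at this ⊢
    omega
  rw [← hd', h3, map_zero]

lemma fin (h : PC s ev) : Finite G := by
  have hf : Set.Finite {c : ι → ℤ | nrm c ≤ s} := by
    refine (Finset.finite_toSet ((range (s + 1)).biUnion fun n => Vn ι n)).subset ?_
    intro c hc
    rw [Finset.mem_coe, Finset.mem_biUnion]
    exact ⟨nrm c, Finset.mem_range.2 (Nat.lt_succ_of_le hc), mem_Vn.2 rfl⟩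
  have := hf.to_subtype
  refine Finite.of_surjective (fun c : {c : ι → ℤ | nrm c ≤ s} => ev c) fun g => ?_
  obtain ⟨d, ⟨hd, hd'⟩, -⟩ := h g
  exact ⟨⟨d, hd⟩, hd'⟩

lemma half (h : PC s ev) (e : ι → ℤ) : ∃ w : ι → ℤ, nrm w ≤ s ∧ ev (e + (w + w)) = 0 := by
  haveI := fin h
  have hinj : Function.Injective fun x : G => x + x := by
    intro x y hxy
    have h1 : x + x = y + y := hxy
    have h2 : (x - y) + (x - y) = 0 := by
      have h3 : (x - y) + (x - y) = (x + x) - (y + y) := by abel
      rw [h3, h1, sub_self]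
    exact sub_eq_zero.1 (two_zero h h2)
  obtain ⟨x, hx⟩ := (Finite.injective_iff_surjective.1 hinj) (-ev e)
  obtain ⟨w, ⟨hw, hw'⟩, -⟩ := h x
  refine ⟨w, hw, ?_⟩
  have hx' : x + x = -ev e := hx
  rw [map_add, map_add, hw', hx', add_neg_cancel]

lemma half_unique (h : PC s ev) {e w w' : ι → ℤ} (h1 : nrm w ≤ s) (h2 : nrm w' ≤ s)
    (h3 : ev (e + (w + w)) = 0) (h4 : ev (e + (w' + w')) = 0) : w = w' := by
  have h5 : (ev w - ev w') + (ev w - ev w') = 0 := by
    have h6 : (ev w - ev w') + (ev w - ev w') = (ev e + (ev w + ev w)) - (ev e + (ev w' + ev w')) := by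
      abel
    rw [map_add, map_add] at h3 h4
    rw [h6, h3, h4, sub_zero]
  have h7 := sub_eq_zero.1 (two_zero h h5)
  exact (h (ev w)).unique ⟨h1, rfl⟩ ⟨h2, h7.symm⟩

lemma small_entries {k : ℕ} {e : ι → ℤ} (h1 : nrm e = k) (h2 : ell e = k) :
    ∀ j, (e j).natAbs ≤ 1 := by
  have h3 := dft_add_ell e
  rw [dft_eq] at h3
  have h4 : dN (ab e) = 0 := by omega
  unfold dN at h4
  rw [Finset.sum_eq_zero_iff] at h4
  intro j
  have := h4 j (mem_univ j)
  unfold ab at this
  omega

lemma nrm_double (e w : ι → ℤ) : nrm (e + (w + w)) ≤ nrm e + 2 * nrm w := by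
  have h1 := Pool.Agent.H2.GC.nrm_triangle e (w + w)
  have h2 := Pool.Agent.H2.GC.nrm_triangle w w
  omega

lemma tight {e w : ι → ℤ} (hs : nrm e + 2 * nrm w ≤ nrm (e + (w + w))) :
    ∀ j, (e j + (w j + w j)).natAbs = (e j).natAbs + 2 * (w j).natAbs := by
  have h1 : ∀ j ∈ univ, (e j + (w j + w j)).natAbs ≤ (e j).natAbs + 2 * (w j).natAbs := by
    intro j _
    omega
  have h2 : ∑ j, (e j + (w j + w j)).natAbs = ∑ j, ((e j).natAbs + 2 * (w j).natAbs) := by
    refine le_antisymm (Finset.sum_le_sum h1) ?_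
    rw [Finset.sum_add_distrib, ← Finset.mul_sum]
    exact hs
  intro j
  exact (Finset.sum_eq_sum_iff_of_le h1).1 h2 j (mem_univ j)

lemma od_add {e w : ι → ℤ} (he : ∀ j, (e j).natAbs ≤ 1) : od (ab (e + (w + w))) = ell e := by
  unfold od ell ab
  congr 1
  ext j
  rw [mem_filter, mem_filter]
  have := he j
  simp only [mem_univ, true_and, Pi.add_apply]
  omega

/-- the count -/
lemma count (h : PC s ev) (k : ℕ)
    (H : ∀ e w : ι → ℤ, nrm e = k → ell e = k → nrm w ≤ s → ev (e + (w + w)) = 0 →
      nrm (e + (w + w)) = 2 * s + k) :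
    #{v ∈ Lv ev (2 * s + k) | od (ab v) = k} = #{e ∈ Vn ι k | ell e = k} := by
  symm
  refine Finset.card_bij (fun e _ => e + ((half h e).choose + (half h e).choose)) ?_ ?_ ?_
  · intro e he
    rw [mem_filter, mem_Vn] at he
    obtain ⟨h1, h2⟩ := (half h e).choose_spec
    rw [mem_filter, mem_Lv]
    refine ⟨⟨H e _ he.1 he.2 h1 h2, h2⟩, ?_⟩
    rw [od_add (small_entries he.1 he.2), he.2]
  · intro e he e' he' heq
    rw [mem_filter, mem_Vn] at he he'
    obtain ⟨h1, h2⟩ := (half h e).choose_spec
    obtain ⟨h1', h2'⟩ := (half h e').choose_spec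
    have h3 := H e _ he.1 he.2 h1 h2
    have h3' := H e' _ he'.1 he'.2 h1' h2'
    have h4 := tight (e := e) (w := (half h e).choose) (by rw [he.1]; omega)
    have h4' := tight (e := e') (w := (half h e').choose) (by rw [he'.1]; omega)
    have h5 := small_entries he.1 he.2
    have h5' := small_entries he'.1 he'.2
    funext j
    have h6 := congrFun heq j
    simp only [Pi.add_apply] at h6
    have a1 := h4 j
    have a2 := h4' j
    have a3 := h5 j
    have a4 := h5' j
    omega
  · intro v hv
    rw [mem_filter, mem_Lv] at hv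
    obtain ⟨⟨hn, h0⟩, ho⟩ := hv
    let e : ι → ℤ := fun j => if v j % 2 = 0 then 0 else if 0 < v j then 1 else -1
    let w : ι → ℤ := fun j => (v j - e j) / 2
    have hew : e + (w + w) = v := by
      funext j
      show e j + ((v j - e j) / 2 + (v j - e j) / 2) = v j
      have : e j = if v j % 2 = 0 then 0 else if 0 < v j then 1 else -1 := rfl
      split_ifs at this with c1 c2 <;> omega
    have hen : ∀ j, (e j).natAbs = if (v j).natAbs % 2 = 1 then 1 else 0 := by
      intro j
      have : e j = if v j % 2 = 0 then 0 else if 0 < v j then 1 else -1 := rfl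
      split_ifs at this ⊢ with c1 c2 <;> omega
    have hne : nrm e = k := by
      unfold nrm
      rw [Finset.sum_congr rfl fun j _ => hen j, ← Finset.card_filter]
      exact ho
    have hle : ell e = k := by
      rw [← ho]
      unfold ell od ab
      congr 1
      ext j
      rw [mem_filter, mem_filter]
      have := hen j
      split_ifs at this with c <;> simp only [mem_univ, true_and] <;> omega
    have hvw : ∀ j, (v j).natAbs = (e j).natAbs + 2 * (w j).natAbs := by
      intro j
      have h1 : e j = if v j % 2 = 0 then 0 else if 0 < v j then 1 else -1 := rfl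
      have h2 : w j = (v j - e j) / 2 := rfl
      split_ifs at h1 with c1 c2 <;> omega
    have hnw : nrm v = nrm e + 2 * nrm w := by
      unfold nrm
      rw [Finset.sum_congr rfl fun j _ => hvw j, Finset.sum_add_distrib, Finset.mul_sum]
    have hw : nrm w ≤ s := by omega
    refine ⟨e, ?_, ?_⟩
    · rw [mem_filter, mem_Vn]
      exact ⟨hne, hle⟩
    · obtain ⟨h1, h2⟩ := (half h e).choose_spec
      have h3 := half_unique h hw h1 (by rw [hew]; exact h0) h2
      show e + ((half h e).choose + (half h e).choose) = v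
      rw [← h3, hew]

lemma card_ones (k : ℕ) : #{u ∈ nv ι k | lN u = k} = (Fintype.card ι).choose k := by
  rw [← Finset.card_univ, ← Finset.card_powersetCard]
  refine Finset.card_bij' (fun u _ => univ.filter fun j => u j ≠ 0)
    (fun S _ => fun j => if j ∈ S then 1 else 0) ?_ ?_ ?_ ?_
  · intro u hu
    rw [mem_filter] at hu
    rw [Finset.mem_powersetCard]
    exact ⟨Finset.subset_univ _, hu.2⟩
  · intro S hS
    rw [Finset.mem_powersetCard] at hS
    rw [mem_filter, mem_nv]
    constructor
    · rw [Finset.sum_ite_mem, univ_inter, ← Finset.card_eq_sum_ones]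
      exact hS.2
    · unfold lN
      rw [← hS.2]
      congr 1
      ext j
      simp
  · intro u hu
    rw [mem_filter, mem_nv] at hu
    have h1 := dN_add_lN u
    have h2 : dN u = 0 := by omega
    unfold dN at h2
    rw [Finset.sum_eq_zero_iff] at h2
    funext j
    have := h2 j (mem_univ j)
    by_cases h3 : u j = 0
    · simp [h3]
    · have h4 : u j = 1 := by omega
      simp [h4]
  · intro S _
    ext j
    simp

lemma card_E (k : ℕ) : #{e ∈ Vn ι k | ell e = k} = 2 ^ k * (Fintype.card ι).choose k := by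
  have h1 := sum_Vn (ι := ι) k (fun u => if lN u = k then 1 else 0)
  have h2 : ((#{e ∈ Vn ι k | ell e = k} : ℕ) : ℝ) = ((2 ^ k * (Fintype.card ι).choose k : ℕ) : ℝ) := by
    rw [Finset.card_filter]
    push_cast
    rw [Finset.sum_congr rfl fun c _ => by rw [Pool.Agent.H23.GF.ell_eq c], h1]
    have h3 : ∀ u ∈ nv ι k, (2 : ℝ) ^ lN u * (if lN u = k then 1 else 0) =
        2 ^ k * (if lN u = k then 1 else 0) := by
      intro u _
      by_cases h : lN u = k
      · rw [h]
      · simp [h]
    rw [Finset.sum_congr rfl h3, ← Finset.mul_sum]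
    congr 1
    rw [← card_ones, Finset.card_filter]
    push_cast
    rfl
  exact_mod_cast h2

lemma nonzero {e w : ι → ℤ} {k : ℕ} (hk : 1 ≤ k) (h1 : nrm e = k) (h2 : ell e = k) :
    e + (w + w) ≠ 0 := by
  intro h3
  have h4 := od_add (w := w) (small_entries h1 h2)
  rw [h3, h2] at h4
  have h5 : od (ab (0 : ι → ℤ)) = 0 := by
    unfold od ab
    simp
  omega

/-- (E): kernel vectors with few odd entries -/
theorem ec (h : PC s ev) (hs : 1 ≤ s) : EC s ev := by
  obtain ⟨hsh, -⟩ := Pool.Agent.H2.GC.l ι G s ev h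
  refine ⟨?_, ?_, ?_⟩
  · rw [Finset.card_eq_zero, Finset.filter_eq_empty_iff]
    intro z hz ho
    rw [mem_Lv] at hz
    have h1 : ∀ j, z j % 2 = 0 := by
      intro j
      have h2 : j ∉ univ.filter fun j => ab z j % 2 = 1 := by
        have h3 : (univ.filter fun j => ab z j % 2 = 1) = ∅ := Finset.card_eq_zero.1 ho
        rw [h3]
        exact Finset.notMem_empty j
      rw [mem_filter] at h2
      have h4 : ¬ (z j).natAbs % 2 = 1 := fun h5 => h2 ⟨mem_univ j, h5⟩
      omega
    let w : ι → ℤ := fun j => z j / 2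
    have hw : w + w = z := by
      funext j
      show z j / 2 + z j / 2 = z j
      have := h1 j
      omega
    have hn : nrm z = 2 * nrm w := by
      unfold nrm
      rw [Finset.mul_sum]
      refine Finset.sum_congr rfl fun j _ => ?_
      show (z j).natAbs = 2 * (z j / 2).natAbs
      have := h1 j
      omega
    have h2 : ev w = 0 := by
      refine two_zero h ?_
      rw [← map_add, hw]
      exact hz.2
    have h3 := hsh w h2 (by omega)
    rw [h3] at hn
    rw [Pool.Agent.H2.GC.nrm_zero] at hn
    omega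
  · rw [count h 1, card_E]
    · simp
    · intro e w h1 h2 h3 h4
      have h5 := nrm_double e w
      by_contra h6
      exact nonzero (w := w) le_rfl h1 h2 (hsh _ h4 (by omega))
  · have h0 := count h 2 (by
      intro e w h1 h2 h3 h4
      have h5 := nrm_double e w
      have h6 : 2 * s < nrm (e + (w + w)) := by
        by_contra h6
        exact nonzero (w := w) (by norm_num) h1 h2 (hsh _ h4 (by omega))
      have h7 := Pool.Agent.H2.GC.parity (e + (w + w)) e
      rw [add_sub_cancel_left] at h7
      have h8 : nrm (w + w) = 2 * nrm w := by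
        unfold nrm
        rw [Finset.mul_sum]
        refine Finset.sum_congr rfl fun j _ => ?_
        show (w j + w j).natAbs = 2 * (w j).natAbs
        omega
      rw [h8, h1] at h7
      rw [Nat.even_iff] at h7
      omega)
    rw [h0, card_E]
    have h1 := Nat.choose_two_right (Fintype.card ι)
    have h2 := Nat.even_mul_pred_self (Fintype.card ι)
    rw [Nat.even_iff] at h2
    have h3 : 2 * (Fintype.card ι).choose 2 = Fintype.card ι * (Fintype.card ι - 1) := by
      rw [h1]
      omega
    have h4 : 2 * Fintype.card ι * (Fintype.card ι - 1) = 2 * (2 * (Fintype.card ι).choose 2) := by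
      rw [h3, mul_assoc]
    rw [h4]
    ring

end Pool.Agent.H71.GW.Odd
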