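import Mathlib

/-!
# Lattice Golomb-Welch: the classes `2 m = 0, -1` modulo `s + 1` (definitions)

Bonferroni expansions over placements. `s` is the radius, `m = card ι` the dimension. Integer
vectors are written as functions `ι × Bool → ℕ` (positive and negative part).
-/

set_option autoImplicit false

open Finset
open scoped Classical

namespace Pool.Agent.H71.GW

/-! ## Polynomials in falling factorials, as lists of natural numbers -/

/-- the value `∑ g_j (x)_j` -/
def ev : List ℕ → ℕ → ℕ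
  | [], _ => 0
  | a :: g, x => a + x * ev g (x - 1)

/-- addition of lists -/
def padd : List ℕ → List ℕ → List ℕ
  | [], g => g
  | f, [] => f
  | a :: f, b :: g => (a + b) :: padd f g

/-- multiplication with `x + c` -/
def mulx : ℕ → List ℕ → List ℕ
  | _, [] => []
  | c, a :: g => (a * c) :: padd [a] (mulx (c + 1) g)

/-- multiplication of `g (x - e)` with `(x)_e` -/
def shm (e : ℕ) (g : List ℕ) : List ℕ := List.replicate e 0 ++ g

/-- divided difference `(g (s) - g (x)) / (s - x)` -/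
def dd : ℕ → List ℕ → List ℕ
  | _, [] => []
  | s, _ :: g => ev g (s - 1) :: dd (s - 1) g

/-- the polynomial of a new placement of weight `e` -/
def stN (s b e : ℕ) (g : List ℕ) : List ℕ := mulx (b - e) (shm e (dd s g))

/-- the polynomial of a raise by `e` -/
def stR (s e : ℕ) (g : List ℕ) : List ℕ := shm e (dd s g)

/-- the polynomial of a first new placement of weight `e` -/
def g1N (a e : ℕ) : List ℕ := mulx (a + 1 - e) (shm (e - 1) [1])

/-- the polynomial of a first raise by `e` -/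
def g1R (e : ℕ) : List ℕ := shm (e - 1) [1]

/-- maximum of `(1 + v) g (s - v)`, `v ≤ s` -/
def supE (s : ℕ) (g : List ℕ) : ℕ :=
  (List.range (s + 1)).foldr (fun v r => max ((1 + v) * ev g (s - v)) r) 0

/-! ## Placements -/

section Place

variable {J : Type} [Fintype J]

/-- the norm -/
def wt (u : J → ℕ) : ℕ := ∑ j, u j

/-- the number of nonzero coordinates -/
def len (u : J → ℕ) : ℕ := #{j | u j ≠ 0}

/-- number of ways to complete `κ` to a vector of norm `n` below `u` by an ordered tuple of new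
coordinates of size one -/
noncomputable def psi (n : ℕ) (κ u : J → ℕ) : ℕ :=
  if κ ≤ u then (len u - len κ).descFactorial (n - wt κ) else 0

/-- the number of additional units of `u` over `κ` -/
def ex (κ u : J → ℕ) : ℕ := ∑ j, if κ j = 0 then u j - 1 else u j - κ j

/-- sum over the moves of `κ`: a new coordinate of size `e + 1`, or a raise of an old coordinate
by `e` -/
noncomputable def mvs (κ : J → ℕ) (EN ER : ℕ) (FN FR : ℕ → (J → ℕ) → ℤ) : ℤ :=
  ∑ j, if κ j = 0 then ∑ e ∈ Icc 1 EN, FN e (κ + Pi.single j (e + 1))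
    else ∑ e ∈ Icc 1 ER, FR e (κ + Pi.single j e)

/-- lower bound functional, with the continuation `U` -/
noncomputable def Low (s n E0 : ℕ) (Ψ : (J → ℕ) → ℤ) (U : ℕ → List ℕ → (J → ℕ) → ℤ) (w : ℕ)
    (g : List ℕ) (κ : J → ℕ) : ℤ :=
  ev g s * Ψ κ - mvs κ (min E0 (n - wt κ - 1)) (min E0 (n - wt κ))
    (fun e κ' => if e < min E0 (n - wt κ - 1) then U (w + e) (stN s (n - wt κ) e g) κ'
      else supE s (stN s (n - wt κ) e g) * Ψ κ')
    (fun e κ' => if e < min E0 (n - wt κ) then U (w + e) (stR s e g) κ'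
      else supE s (stR s e g) * Ψ κ')

/-- upper bound functional -/
noncomputable def Up (s n EW E0 : ℕ) (Ψ : (J → ℕ) → ℤ) : ℕ → ℕ → List ℕ → (J → ℕ) → ℤ
  | 0, _, g, κ => ev g s * Ψ κ
  | k + 1, w, g, κ => ev g s * Ψ κ - mvs κ (EW - w) (EW - w)
      (fun e κ' => if e + 3 ≤ n - wt κ then
        Low s n E0 Ψ (Up s n EW E0 Ψ k) (w + e) (stN s (n - wt κ) e g) κ' else 0)
      (fun e κ' => if e + 2 ≤ n - wt κ then
        Low s n E0 Ψ (Up s n EW E0 Ψ k) (w + e) (stR s e g) κ' else 0)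

/-- correction functional for the vectors of norm `2 s + 1`, with the continuation `H` -/
noncomputable def HS (s E0 : ℕ) (Ψ : (J → ℕ) → ℤ) (H : ℕ → List ℕ → (J → ℕ) → ℤ) (w : ℕ)
    (g : List ℕ) (κ : J → ℕ) : ℤ :=
  ((s * ev (dd s g) (s - 1) : ℕ) : ℤ) * Ψ κ +
    mvs κ (min E0 (s + 2 - wt κ - 1) - 1) (min E0 (s + 2 - wt κ) - 1)
      (fun e κ' => H (w + e) (stN s (s + 2 - wt κ) e g) κ')
      (fun e κ' => H (w + e) (stR s e g) κ')

/-- correction functional for the vectors of norm `2 s + 1` -/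
noncomputable def HF (s EW E0 : ℕ) (Ψ : (J → ℕ) → ℤ) : ℕ → ℕ → List ℕ → (J → ℕ) → ℤ
  | 0, _, _, _ => 0
  | k + 1, w, g, κ => mvs κ (EW - w) (EW - w)
      (fun e κ' => if e + 3 ≤ s + 2 - wt κ then
        HS s E0 Ψ (HF s EW E0 Ψ k) (w + e) (stN s (s + 2 - wt κ) e g) κ' else 0)
      (fun e κ' => if e + 2 ≤ s + 2 - wt κ then
        HS s E0 Ψ (HF s EW E0 Ψ k) (w + e) (stR s e g) κ' else 0)

/-- the certificate: upper bound for (number of additional units over `κ`) times the number of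
completions of `κ` to norm `s + 1` -/
noncomputable def UP (s a EW E0 k : ℕ) (Ψ : (J → ℕ) → ℤ) (κ : J → ℕ) : ℤ :=
  mvs κ (min E0 a) (min E0 (a + 1))
    (fun e κ' => if e < min E0 a then Up s (s + 2) EW E0 Ψ k e (g1N a e) κ'
      else supE s (g1N a e) * Ψ κ')
    (fun e κ' => if e < min E0 (a + 1) then Up s (s + 2) EW E0 Ψ k e (g1R e) κ'
      else supE s (g1R e) * Ψ κ')

/-- one term of the gain -/
noncomputable def GG (s EW E0 k : ℕ) (Ψ : (J → ℕ) → ℤ) (e : ℕ) (g : List ℕ) (κ : J → ℕ) : ℤ :=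
  (if e ≤ 2 ∧ 3 ≤ s + 2 - wt κ then
    Low s (s + 1) E0 Ψ (Up s (s + 1) EW E0 Ψ 0) e (0 :: dd s g) κ else 0) -
  HF s EW E0 Ψ k e g κ

/-- the gain over the vectors of norm `2 s + 1` -/
noncomputable def GAIN (s a EW E0 k : ℕ) (Ψ : (J → ℕ) → ℤ) (κ : J → ℕ) : ℤ :=
  mvs κ (min E0 a - 1) (min E0 (a + 1) - 1)
    (fun e κ' => GG s EW E0 k Ψ e (g1N a e) κ') (fun e κ' => GG s EW E0 k Ψ e (g1R e) κ')

end Place

/-! ## The same functionals as lists of coefficients -/

/-- addition of lists -/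
def zadd : List ℤ → List ℤ → List ℤ
  | [], g => g
  | f, [] => f
  | a :: f, b :: g => (a + b) :: zadd f g

/-- multiple of a list -/
def zsmul (c : ℤ) (g : List ℤ) : List ℤ := g.map (c * ·)

/-- shift of a list -/
def zsh (e : ℕ) (g : List ℤ) : List ℤ := List.replicate e 0 ++ g

/-- sum of the shifted lists `L 1, …, L E` -/
def zsum : ℕ → (ℕ → List ℤ) → List ℤ
  | 0, _ => []
  | E + 1, L => zadd (zsum E L) (zsh (E + 1) (L (E + 1)))

/-- moves for lists -/
def mvl (l EN ER : ℕ) (LN LR : ℕ → List ℤ) : List ℤ :=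
  zadd (zsum EN LN) (zsmul l (zsum ER LR))

/-- `Low` for lists -/
def CL (s E0 : ℕ) (U : ℕ → List ℕ → ℕ → ℕ → List ℤ) (w : ℕ) (g : List ℕ) (l b : ℕ) : List ℤ :=
  zadd [(ev g s : ℤ)] (zsmul (-1) (mvl l (min E0 (b - 1)) (min E0 b)
    (fun e => if e < min E0 (b - 1) then U (w + e) (stN s b e g) (l + 1) (b - (e + 1))
      else [(supE s (stN s b e g) : ℤ)])
    (fun e => if e < min E0 b then U (w + e) (stR s e g) l (b - e)
      else [(supE s (stR s e g) : ℤ)])))

/-- `Up` for lists -/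
def CU (s EW E0 : ℕ) : ℕ → ℕ → List ℕ → ℕ → ℕ → List ℤ
  | 0, _, g, _, _ => [(ev g s : ℤ)]
  | k + 1, w, g, l, b => zadd [(ev g s : ℤ)] (zsmul (-1) (mvl l (EW - w) (EW - w)
      (fun e => if e + 3 ≤ b then
        CL s E0 (CU s EW E0 k) (w + e) (stN s b e g) (l + 1) (b - (e + 1)) else [])
      (fun e => if e + 2 ≤ b then
        CL s E0 (CU s EW E0 k) (w + e) (stR s e g) l (b - e) else [])))

/-- `HS` for lists; `b` is `s + 2 - wt κ` -/
def CHS (s E0 : ℕ) (H : ℕ → List ℕ → ℕ → ℕ → List ℤ) (w : ℕ) (g : List ℕ) (l b : ℕ) : List ℤ :=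
  zadd [((s * ev (dd s g) (s - 1) : ℕ) : ℤ)]
    (mvl l (min E0 (b - 1) - 1) (min E0 b - 1)
      (fun e => H (w + e) (stN s b e g) (l + 1) (b - (e + 1)))
      (fun e => H (w + e) (stR s e g) l (b - e)))

/-- `HF` for lists -/
def CH (s EW E0 : ℕ) : ℕ → ℕ → List ℕ → ℕ → ℕ → List ℤ
  | 0, _, _, _, _ => []
  | k + 1, w, g, l, b => mvl l (EW - w) (EW - w)
      (fun e => if e + 3 ≤ b then
        CHS s E0 (CH s EW E0 k) (w + e) (stN s b e g) (l + 1) (b - (e + 1)) else [])
      (fun e => if e + 2 ≤ b then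
        CHS s E0 (CH s EW E0 k) (w + e) (stR s e g) l (b - e) else [])

/-- `UP` for lists -/
def CUP (s a l EW E0 k : ℕ) : List ℤ :=
  mvl l (min E0 a) (min E0 (a + 1))
    (fun e => if e < min E0 a then CU s EW E0 k e (g1N a e) (l + 1) (a + 1 - (e + 1))
      else [(supE s (g1N a e) : ℤ)])
    (fun e => if e < min E0 (a + 1) then CU s EW E0 k e (g1R e) l (a + 1 - e)
      else [(supE s (g1R e) : ℤ)])

/-- `GG` for lists; `b` is `s + 2 - wt κ` -/
def CGG (s EW E0 k e : ℕ) (g : List ℕ) (l b : ℕ) : List ℤ :=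
  zadd (if e ≤ 2 ∧ 3 ≤ b then CL s E0 (CU s EW E0 0) e (0 :: dd s g) l (b - 1) else [])
    (zsmul (-1) (CH s EW E0 k e g l b))

/-- `GAIN` for lists -/
def CGAIN (s a l EW E0 k : ℕ) : List ℤ :=
  mvl l (min E0 a - 1) (min E0 (a + 1) - 1)
    (fun e => CGG s EW E0 k e (g1N a e) (l + 1) (a + 1 - (e + 1)))
    (fun e => CGG s EW E0 k e (g1R e) l (a + 1 - e))

/-- the final list -/
def TT (s a l EW E0 k : ℕ) : List ℤ :=
  zadd (zadd (CUP s a l EW E0 k) [0, -((a + s + l : ℕ) : ℤ)])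
    (zsmul (-1) (zsh 1 (CGAIN s a l EW E0 k)))

/-- the weights -/
def nu (m c : ℕ) : ℤ := 2 ^ c * (m.descFactorial c : ℤ)

/-- evaluation of a list of coefficients -/
def eva (m : ℕ) : List ℤ → ℕ → ℤ
  | [], _ => 0
  | x :: L, c => x * nu m c + eva m L (c - 1)

/-- Horner evaluation: `∑ L_j ∏ ...`, positive multiple of `eva` -/
def horner (m : ℕ) : List ℤ → ℕ → ℤ → ℤ
  | [], _, r => r
  | x :: L, c, r => horner m L (c - 1) (2 * ((m : ℤ) - c) * r + x)

end Pool.Agent.H71.GW
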