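import Pool.Agent.H23.GC.Targets
import Pool.Agent.H71.GW.Defs

/-!
# Lattice Golomb-Welch, classes `0` and `1`: targets of the modules

One `Prop` per module. Everything below `T_GRP` is elementary finite combinatorics.
-/

set_option autoImplicit false

open Finset
open scoped Classical

namespace Pool.Agent.H71.GW

/-- only positive or only negative part in every coordinate -/
def Val {ι : Type} (u : ι × Bool → ℕ) : Prop := ∀ j, u (j, true) = 0 ∨ u (j, false) = 0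

/-- what is used about the vectors of norm `2 s + 1` and `2 s + 2` of the lattice, if
`2 m + i` is divisible by `s + 1` -/
structure Sys (ι : Type) [Fintype ι] (s i : ℕ) where
  /-- vectors of norm `2 s + 1` -/
  Z0 : Finset (ι × Bool → ℕ)
  /-- vectors of norm `2 s + 2` -/
  Z1 : Finset (ι × Bool → ℕ)
  val0 : ∀ z ∈ Z0, Val z
  val1 : ∀ z ∈ Z1, Val z
  wt0 : ∀ z ∈ Z0, wt z = 2 * s + 1
  wt1 : ∀ z ∈ Z1, wt z = 2 * s + 2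
  r1 : ∀ c : ι × Bool → ℕ, Val c → wt c = s + 1 → ∃! z, z ∈ Z0 ∧ c ≤ z
  r2 : ∀ p : ι × Bool → ℕ, Val p → wt p = s + 2 → ∃! z, z ∈ Z0 ∪ Z1 ∧ p ≤ z
  cls : ∀ c : ι × Bool → ℕ, Val c → wt c = s + 1 → len c + i ≤ s + 1 →
    2 * Fintype.card ι + i ≤ (s + 1) * (1 + #{z ∈ Z1 | c ≤ z})

/-- (GRP) from the group to `Sys`. -/
def T_GRP : Prop :=
  ∀ (ι : Type) [Fintype ι] (G : Type) [AddCommGroup G] (s i : ℕ) (ev : (ι → ℤ) →+ G),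
    Pool.Agent.H23.GC.PC s ev → 1 ≤ s → i ≤ s → (2 * Fintype.card ι + i) % (s + 1) = 0 →
    Nonempty (Sys ι s i)

/-- (CNT) number of completions. -/
def T_CNT : Prop :=
  ∀ (ι : Type) [Fintype ι] (n : ℕ) (Z : Finset (ι × Bool → ℕ)), (∀ z ∈ Z, Val z) →
    (∀ p : ι × Bool → ℕ, Val p → wt p = n → ∃! z, z ∈ Z ∧ p ≤ z) →
    ∀ κ : ι × Bool → ℕ,
    (¬ Val κ → ∑ z ∈ Z, (psi n κ z : ℤ) = 0) ∧
    (Val κ → wt κ ≤ n → (∑ z ∈ Z, (psi n κ z : ℤ)) * nu (Fintype.card ι) (len κ) =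
      nu (Fintype.card ι) (len κ + (n - wt κ)))

/-- (POL) the lists of natural numbers. -/
def T_POL : Prop :=
  (∀ (g : List ℕ) (x y : ℕ), x ≤ y → ev g x ≤ ev g y) ∧
  (∀ (g : List ℕ) (s x : ℕ), x ≤ s → (s - x) * ev (dd s g) x + ev g x = ev g s) ∧
  (∀ (g : List ℕ) (c x : ℕ), ev (mulx c g) x = (x + c) * ev g x) ∧
  (∀ (g : List ℕ) (e x : ℕ), ev (shm e g) x = x.descFactorial e * ev g (x - e)) ∧
  ∀ (g : List ℕ) (s v : ℕ), v ≤ s → (1 + v) * ev g (s - v) ≤ supE s g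

/-- (LST) the lists of integers. -/
def T_LST : Prop :=
  (∀ (m : ℕ) (f g : List ℤ) (c : ℕ), eva m (zadd f g) c = eva m f c + eva m g c) ∧
  (∀ (m : ℕ) (a : ℤ) (g : List ℤ) (c : ℕ), eva m (zsmul a g) c = a * eva m g c) ∧
  (∀ (m e : ℕ) (g : List ℤ) (c : ℕ), eva m (zsh e g) c = eva m g (c - e)) ∧
  ∀ (m l EN ER : ℕ) (LN LR : ℕ → List ℤ) (c : ℕ), eva m (mvl l EN ER LN LR) c =
    ∑ e ∈ Icc 1 EN, eva m (LN e) (c - e) + l * ∑ e ∈ Icc 1 ER, eva m (LR e) (c - e)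

/-- (BAS) norms and additional units. -/
def T_BAS : Prop :=
  ∀ (J : Type) [Fintype J] (κ u : J → ℕ),
    (κ ≤ u → len κ ≤ len u ∧ wt κ ≤ wt u ∧ wt u = wt κ + (len u - len κ) + ex κ u) ∧
    ∀ (j : J) (e : ℕ),
    (wt (κ + Pi.single j e) = wt κ + e) ∧
    (κ j = 0 → len (κ + Pi.single j (e + 1)) = len κ + 1) ∧
    (κ j ≠ 0 → len (κ + Pi.single j e) = len κ) ∧
    (κ + Pi.single j e ≤ u → κ ≤ u) ∧
    (κ j = 0 → κ + Pi.single j (e + 1) ≤ u → ex (κ + Pi.single j (e + 1)) u + e = ex κ u) ∧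
    (κ j ≠ 0 → κ + Pi.single j e ≤ u → ex (κ + Pi.single j e) u + e = ex κ u)

/-- (TRN) transition of the number of completions. -/
def T_TRN : Prop :=
  ∀ (J : Type) [Fintype J] (κ u : J → ℕ) (n t : ℕ), wt u = n + t → wt κ ≤ n →
    ∀ (j : J) (e : ℕ), 1 ≤ e →
    (∀ (s : ℕ) (g : List ℕ), κ j = 0 → e + 1 ≤ n - wt κ → κ + Pi.single j (e + 1) ≤ u →
      ev (dd s g) (t - ex κ u) * psi n κ u =
        ev (stN s (n - wt κ) e g) (t - ex (κ + Pi.single j (e + 1)) u) *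
          psi n (κ + Pi.single j (e + 1)) u) ∧
    (∀ (s : ℕ) (g : List ℕ), κ j ≠ 0 → e ≤ n - wt κ → κ + Pi.single j e ≤ u →
      ev (dd s g) (t - ex κ u) * psi n κ u =
        ev (stR s e g) (t - ex (κ + Pi.single j e) u) * psi n (κ + Pi.single j e) u) ∧
    (∀ a : ℕ, wt κ + a + 1 = n → κ j = 0 → e ≤ a → κ + Pi.single j (e + 1) ≤ u →
      psi (n - 1) κ u = ev (g1N a e) (t - ex (κ + Pi.single j (e + 1)) u) *
        psi n (κ + Pi.single j (e + 1)) u) ∧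
    (∀ a : ℕ, wt κ + a + 1 = n → κ j ≠ 0 → e ≤ a + 1 → κ + Pi.single j e ≤ u →
      psi (n - 1) κ u = ev (g1R e) (t - ex (κ + Pi.single j e) u) *
        psi n (κ + Pi.single j e) u)

/-- (PSI) vectors of norm `2 s + 1`: completions to norm `s + 1` and `s + 2`, and the case of too
many additional units. -/
def T_PSI : Prop :=
  (∀ (J : Type) [Fintype J] (κ u : J → ℕ) (n t : ℕ), wt u = n + t → wt κ ≤ n → t < ex κ u →
    psi n κ u = 0) ∧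
  ∀ (J : Type) [Fintype J] (κ u : J → ℕ) (s : ℕ), wt u = 2 * s + 1 → wt κ ≤ s + 1 →
    psi (s + 2) κ u = (s - ex κ u) * psi (s + 1) κ u

/-- (SLO) units, lower estimate. -/
def T_SLO : Prop :=
  ∀ (J : Type) [Fintype J] (κ u : J → ℕ) (V : ℤ) (EN ER : ℕ) (FN FR : ℕ → (J → ℕ) → ℤ),
    κ ≤ u → 0 ≤ V →
    (∀ (j : J) (e : ℕ), κ j = 0 → 1 ≤ e → e ≤ EN → κ + Pi.single j (e + 1) ≤ u →
      FN e (κ + Pi.single j (e + 1)) ≤ V) →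
    (∀ (j : J) (e : ℕ), κ j = 0 → 1 ≤ e → e ≤ EN → ¬ κ + Pi.single j (e + 1) ≤ u →
      FN e (κ + Pi.single j (e + 1)) ≤ 0) →
    (∀ (j : J) (e : ℕ), κ j ≠ 0 → 1 ≤ e → e ≤ ER → κ + Pi.single j e ≤ u →
      FR e (κ + Pi.single j e) ≤ V) →
    (∀ (j : J) (e : ℕ), κ j ≠ 0 → 1 ≤ e → e ≤ ER → ¬ κ + Pi.single j e ≤ u →
      FR e (κ + Pi.single j e) ≤ 0) →
    mvs κ EN ER FN FR ≤ ex κ u * V

/-- (SUP) units, upper estimate. -/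
def T_SUP : Prop :=
  ∀ (J : Type) [Fintype J] (κ u : J → ℕ) (V : ℤ) (EN ER : ℕ) (FN FR : ℕ → (J → ℕ) → ℤ),
    κ ≤ u → 0 ≤ V → 1 ≤ EN → 1 ≤ ER →
    (∀ (j : J) (e : ℕ), κ j = 0 → 1 ≤ e → e < EN → κ + Pi.single j (e + 1) ≤ u →
      V ≤ FN e (κ + Pi.single j (e + 1))) →
    (∀ j : J, κ j = 0 → κ + Pi.single j (EN + 1) ≤ u →
      (1 + (u j - (EN + 1) : ℕ)) * V ≤ FN EN (κ + Pi.single j (EN + 1))) →
    (∀ (j : J) (e : ℕ), κ j = 0 → 1 ≤ e → e ≤ EN → ¬ κ + Pi.single j (e + 1) ≤ u →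
      0 ≤ FN e (κ + Pi.single j (e + 1))) →
    (∀ (j : J) (e : ℕ), κ j ≠ 0 → 1 ≤ e → e < ER → κ + Pi.single j e ≤ u →
      V ≤ FR e (κ + Pi.single j e)) →
    (∀ j : J, κ j ≠ 0 → κ + Pi.single j ER ≤ u →
      (1 + (u j - (κ j + ER) : ℕ)) * V ≤ FR ER (κ + Pi.single j ER)) →
    (∀ (j : J) (e : ℕ), κ j ≠ 0 → 1 ≤ e → e ≤ ER → ¬ κ + Pi.single j e ≤ u →
      0 ≤ FR e (κ + Pi.single j e)) →
    ex κ u * V ≤ mvs κ EN ER FN FR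

/-- (ZER) the functionals vanish where `Ψ` vanishes. -/
def T_ZER : Prop :=
  ∀ (J : Type) [Fintype J] (Ψ : (J → ℕ) → ℤ) (κ : J → ℕ), (∀ κ' : J → ℕ, κ ≤ κ' → Ψ κ' = 0) →
    ∀ s n a EW E0 k w e : ℕ, ∀ g : List ℕ,
    Up s n EW E0 Ψ k w g κ = 0 ∧ Low s n E0 Ψ (Up s n EW E0 Ψ k) w g κ = 0 ∧
      HF s EW E0 Ψ k w g κ = 0 ∧ HS s E0 Ψ (HF s EW E0 Ψ k) w g κ = 0 ∧
      UP s a EW E0 k Ψ κ = 0 ∧ GG s EW E0 k Ψ e g κ = 0 ∧ GAIN s a EW E0 k Ψ κ = 0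

/-- (LIN) the functionals are additive in `Ψ`. -/
def T_LIN : Prop :=
  ∀ (J : Type) [Fintype J] (Z : Finset (J → ℕ)) (Ψ : (J → ℕ) → (J → ℕ) → ℤ) (κ : J → ℕ)
    (s a EW E0 k : ℕ),
    UP s a EW E0 k (fun κ' => ∑ z ∈ Z, Ψ z κ') κ = ∑ z ∈ Z, UP s a EW E0 k (Ψ z) κ ∧
      GAIN s a EW E0 k (fun κ' => ∑ z ∈ Z, Ψ z κ') κ = ∑ z ∈ Z, GAIN s a EW E0 k (Ψ z) κ

/-- (CA) bounds over the vectors of norm `n + s`. -/
def T_CA : Prop :=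
  ∀ (J : Type) [Fintype J] (u : J → ℕ) (n s EW E0 : ℕ), wt u = n + s → 1 ≤ E0 →
    (∀ (k w : ℕ) (g : List ℕ) (κ : J → ℕ), wt κ ≤ n →
      ((ev g (s - ex κ u) * psi n κ u : ℕ) : ℤ) ≤
        Up s n EW E0 (fun κ' => (psi n κ' u : ℤ)) k w g κ) ∧
    ∀ (k w : ℕ) (g : List ℕ) (κ : J → ℕ), wt κ + 2 ≤ n →
      Low s n E0 (fun κ' => (psi n κ' u : ℤ)) (Up s n EW E0 (fun κ' => (psi n κ' u : ℤ)) k) w g κ ≤
        ((ev g (s - ex κ u) * psi n κ u : ℕ) : ℤ)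

/-- (CB) bounds over the vectors of norm `2 s + 1`. -/
def T_CB : Prop :=
  ∀ (J : Type) [Fintype J] (u : J → ℕ) (s EW E0 : ℕ), wt u = 2 * s + 1 → 1 ≤ s → 1 ≤ E0 →
    (∀ (k w : ℕ) (g : List ℕ) (κ : J → ℕ), wt κ ≤ s + 2 →
      (((ev g (s - 1 - ex κ u) + ev (dd s g) (s - 1 - ex κ u)) * psi (s + 2) κ u : ℕ) : ℤ) ≤
        Up s (s + 2) EW E0 (fun κ' => (psi (s + 2) κ' u : ℤ)) k w g κ +
          HF s EW E0 (fun κ' => (psi (s + 1) κ' u : ℤ)) k w g κ) ∧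
    ∀ (k w : ℕ) (g : List ℕ) (κ : J → ℕ), wt κ + 2 ≤ s + 2 →
      Low s (s + 2) E0 (fun κ' => (psi (s + 2) κ' u : ℤ))
        (Up s (s + 2) EW E0 (fun κ' => (psi (s + 2) κ' u : ℤ)) k) w g κ ≤
        ((ev g (s - 1 - ex κ u) * psi (s + 2) κ u : ℕ) : ℤ) +
          HS s E0 (fun κ' => (psi (s + 1) κ' u : ℤ))
            (HF s EW E0 (fun κ' => (psi (s + 1) κ' u : ℤ)) k) w g κ

/-- (LV1) first level. -/
def T_LV1 : Prop :=
  ∀ (J : Type) [Fintype J] (κ u : J → ℕ) (s a EW E0 k : ℕ), 1 ≤ s → 1 ≤ a → 1 ≤ E0 →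
    wt κ + a = s + 1 →
    (wt u = 2 * s + 2 → ((ex κ u * psi (s + 1) κ u : ℕ) : ℤ) ≤
      UP s a EW E0 k (fun κ' => (psi (s + 2) κ' u : ℤ)) κ) ∧
    (wt u = 2 * s + 1 → ((ex κ u * psi (s + 1) κ u : ℕ) : ℤ) +
        GAIN s a EW E0 k (fun κ' => (psi (s + 1) κ' u : ℤ)) κ ≤
      UP s a EW E0 k (fun κ' => (psi (s + 2) κ' u : ℤ)) κ)

/-- (VAL) values of the functionals. -/
def T_VAL : Prop :=
  ∀ (ι : Type) [Fintype ι] (s a EW E0 k : ℕ) (Ψ : (ι × Bool → ℕ) → ℤ) (κ : ι × Bool → ℕ),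
    s + 2 ≤ Fintype.card ι → Val κ → wt κ + a = s + 1 → (∀ κ', ¬ Val κ' → Ψ κ' = 0) →
    ((∀ κ', Val κ' → wt κ' ≤ s + 2 → Ψ κ' * nu (Fintype.card ι) (len κ') =
        nu (Fintype.card ι) (len κ' + (s + 2 - wt κ'))) →
      UP s a EW E0 k Ψ κ * nu (Fintype.card ι) (len κ) =
        eva (Fintype.card ι) (CUP s a (len κ) EW E0 k) (len κ + (a + 1))) ∧
    ((∀ κ', Val κ' → wt κ' ≤ s + 1 → Ψ κ' * nu (Fintype.card ι) (len κ') =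
        nu (Fintype.card ι) (len κ' + (s + 1 - wt κ'))) →
      GAIN s a EW E0 k Ψ κ * nu (Fintype.card ι) (len κ) =
        eva (Fintype.card ι) (CGAIN s a (len κ) EW E0 k) (len κ + a))

/-- (IDN) the class inequality as a lower bound for the number of additional units. -/
def T_IDN : Prop :=
  ∀ (ι : Type) [Fintype ι] (s i a : ℕ) (S : Sys ι s i) (κ : ι × Bool → ℕ),
    Val κ → wt κ + a = s + 1 → len κ + i = wt κ → s + 2 ≤ Fintype.card ι →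
    ((a + s + len κ : ℕ) : ℤ) * nu (Fintype.card ι) (len κ + a) ≤
      (∑ z ∈ S.Z0 ∪ S.Z1, ((ex κ z * psi (s + 1) κ z : ℕ) : ℤ)) * nu (Fintype.card ι) (len κ)

/-- (ASM) necessary condition. -/
def T_ASM : Prop :=
  ∀ (ι : Type) [Fintype ι] (s : ℕ), 2 ≤ s → s + 2 ≤ Fintype.card ι → ∀ EW E0 k : ℕ, 1 ≤ E0 →
    (Nonempty (Sys ι s 0) → 0 ≤ eva (Fintype.card ι) (TT s (s + 1) 0 EW E0 k) (s + 2)) ∧
    (Nonempty (Sys ι s 1) → 0 ≤ eva (Fintype.card ι) (TT s (s - 1) 1 EW E0 k) (s + 1))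

/-- the shape of the final lists: two zeros, then one negative, then nonnegative numbers -/
def good : List ℤ → Bool
  | x :: y :: z :: L => x == 0 && y == 0 && decide (z < 0) && L.all (fun w => decide (0 ≤ w))
  | _ => false

/-- (HOR) monotonicity in the dimension. -/
def T_HOR : Prop :=
  ∀ (L : List ℤ) (c m₀ : ℕ), good L = true → L.length ≤ c + 1 → c ≤ m₀ →
    horner m₀ L c 0 < 0 → ∀ m : ℕ, m₀ ≤ m → eva m L c < 0

/-- (NUM) radius from 8 to 79. -/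
def T_NUM : Prop :=
  (∀ s : ℕ, 8 ≤ s → s < 80 → ∃ EW k : ℕ,
    good (TT s (s + 1) 0 EW 5 k) = true ∧ (TT s (s + 1) 0 EW 5 k).length ≤ s + 3 ∧
    horner (if s = 8 then 54 else if s = 9 then 55 else if s = 10 then 66 else
      (s * (s + 2) + 1) / 2) (TT s (s + 1) 0 EW 5 k) (s + 2) 0 < 0) ∧
  ∀ s : ℕ, 10 ≤ s → s < 80 → Even s → ∃ EW k : ℕ,
    good (TT s (s - 1) 1 EW 5 k) = true ∧ (TT s (s - 1) 1 EW 5 k).length ≤ s + 2 ∧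
    horner (if s = 10 then 71 else s * (s + 2) / 2) (TT s (s - 1) 1 EW 5 k) (s + 1) 0 < 0

/-- (UNI) large radius. -/
def T_UNI : Prop :=
  ∀ s : ℕ, 80 ≤ s → ∀ m : ℕ, s * (s + 2) ≤ 2 * m → ∃ EW E0 k : ℕ, 1 ≤ E0 ∧
    eva m (TT s (s + 1) 0 EW E0 k) (s + 2) < 0 ∧ eva m (TT s (s - 1) 1 EW E0 k) (s + 1) < 0

/-- the theorem: the classes `0` and `1` -/
def Main01 : Prop :=
  ∀ (ι : Type) [Fintype ι] (G : Type) [AddCommGroup G] (s : ℕ) (ev : (ι → ℤ) →+ G),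
    Pool.Agent.H23.GC.PC s ev → 8 ≤ s →
    ((2 * Fintype.card ι) % (s + 1) = 0 →
      2 * Fintype.card ι ≤ if s = 8 then 90 else if s = 9 then 100 else s * (s + 2)) ∧
    ((2 * Fintype.card ι + 1) % (s + 1) = 0 → 10 ≤ s →
      2 * Fintype.card ι < if s = 10 then 142 else s * (s + 2))

end Pool.Agent.H71.GW
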