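import Pool.Agent.H71.GW.Targets

/-!
# Large radius (module UNI)
-/

set_option autoImplicit false

open Finset

namespace Pool.Agent.H71.GW

theorem supE_le (s : ℕ) (g : List ℕ) (B : ℕ) (h : ∀ v ≤ s, (1 + v) * ev g (s - v) ≤ B) :
    supE s g ≤ B := by
  unfold supE
  have key : ∀ L : List ℕ, (∀ v ∈ L, v ≤ s) →
      L.foldr (fun v r => max ((1 + v) * ev g (s - v)) r) 0 ≤ B := by
    intro L
    induction L with
    | nil => intro _; simp
    | cons x L ih =>
      intro hL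
      rw [List.foldr_cons]
      exact max_le (h x (hL x (by simp))) (ih fun v hv => hL v (by simp [hv]))
  apply key
  intro v hv
  rw [List.mem_range] at hv
  omega

section

variable (hPOL : T_POL)
include hPOL

theorem supE_le' (s : ℕ) (g : List ℕ) : supE s g ≤ (s + 1) * ev g s := by
  apply supE_le
  intro v hv
  exact Nat.mul_le_mul (by omega) (hPOL.1 g _ _ (Nat.sub_le _ _))

theorem ev_stN (s b e x : ℕ) (g : List ℕ) :
    ev (stN s b e g) x = (x + (b - e)) * (x.descFactorial e * ev (dd s g) (x - e)) := by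
  unfold stN
  rw [hPOL.2.2.1, hPOL.2.2.2.1]

theorem ev_stR (s e x : ℕ) (g : List ℕ) :
    ev (stR s e g) x = x.descFactorial e * ev (dd s g) (x - e) := by
  unfold stR
  rw [hPOL.2.2.2.1]

theorem ev_g1N (a e x : ℕ) :
    ev (g1N a e) x = (x + (a + 1 - e)) * x.descFactorial (e - 1) := by
  unfold g1N
  rw [hPOL.2.2.1, hPOL.2.2.2.1]
  simp [ev]

theorem ev_g1R (e x : ℕ) : ev (g1R e) x = x.descFactorial (e - 1) := by
  unfold g1R
  rw [hPOL.2.2.2.1]
  simp [ev]

/-- the value of the divided difference at `s - 1` -/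
theorem dd_pred (s : ℕ) (hs : 1 ≤ s) (g : List ℕ) :
    ev (dd s g) (s - 1) + ev g (s - 1) = ev g s := by
  have h := hPOL.2.1 g s (s - 1) (Nat.sub_le _ _)
  have e : s - (s - 1) = 1 := by omega
  rwa [e, one_mul] at h

end

/-- the bound for the full moves -/
def SS (m s c : ℕ) : ℤ :=
  s * (s + c - 1) * nu m (c - 1) + s ^ 2 * (s + c - 2) * nu m (c - 2) +
    s ^ 3 * (s + c - 3) * nu m (c - 3) + s ^ 4 * (s + c - 4) * nu m (c - 4) +
    (s + 1) * s ^ 5 * (s + c - 5) * nu m (c - 5)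

theorem nu_nonneg (m c : ℕ) : 0 ≤ nu m c := by unfold nu; positivity

theorem eva_single (m : ℕ) (x : ℤ) (c : ℕ) : eva m [x] c = x * nu m c := by simp [eva]

theorem full_le (hPOL : T_POL) (hLST : T_LST) (m s l b c : ℕ) (g : List ℕ) (hb : 6 ≤ b)
    (hs : 6 ≤ s) (hc : c = l + b) :
    eva m (mvl l (min 5 (b - 1)) (min 5 b)
      (fun e => if e < min 5 (b - 1) then [(ev (stN s b e g) s : ℤ)]
        else [(supE s (stN s b e g) : ℤ)])
      (fun e => if e < min 5 b then [(ev (stR s e g) s : ℤ)]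
        else [(supE s (stR s e g) : ℤ)])) c ≤ ev (dd s g) (s - 1) * SS m s c := by
  rw [hLST.2.2.2]
  have h1 : min 5 (b - 1) = 5 := by omega
  have h2 : min 5 b = 5 := by omega
  rw [h1, h2]
  have hI : (Icc 1 5 : Finset ℕ) = {1, 2, 3, 4, 5} := by decide
  rw [hI]
  set Q := ev (dd s g) (s - 1) with hQ
  -- the value of one level
  have hv : ∀ e : ℕ, 1 ≤ e → e ≤ 5 →
      ((ev (stN s b e g) s : ℕ) : ℤ) + l * ((ev (stR s e g) s : ℕ) : ℤ) ≤
        Q * (s ^ e * (s + c - e)) := by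
    intro e he1 he5
    have hq : ev (dd s g) (s - e) ≤ Q := hPOL.1 _ _ _ (by omega)
    have hd : s.descFactorial e ≤ s ^ e := Nat.descFactorial_le_pow s e
    have h3 : ev (stN s b e g) s + l * ev (stR s e g) s ≤ Q * (s ^ e * (s + (b - e) + l)) := by
      rw [ev_stN hPOL, ev_stR hPOL]
      calc (s + (b - e)) * (s.descFactorial e * ev (dd s g) (s - e)) +
            l * (s.descFactorial e * ev (dd s g) (s - e))
          = (s + (b - e) + l) * (s.descFactorial e * ev (dd s g) (s - e)) := by ring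
        _ ≤ (s + (b - e) + l) * (s ^ e * Q) :=
            Nat.mul_le_mul_left _ (Nat.mul_le_mul hd hq)
        _ = _ := by ring
    have h4 : ((s + (b - e) + l : ℕ) : ℤ) = s + c - e := by
      rw [hc]; push_cast [Nat.cast_sub (show e ≤ b by omega)]; ring
    have h5 : ((ev (stN s b e g) s + l * ev (stR s e g) s : ℕ) : ℤ) ≤
        ((Q * (s ^ e * (s + (b - e) + l)) : ℕ) : ℤ) := by exact_mod_cast h3
    rw [Nat.cast_mul, Nat.cast_mul, h4] at h5
    push_cast at h5 ⊢
    exact h5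
  have hsup : ((supE s (stN s b 5 g) : ℕ) : ℤ) + l * ((supE s (stR s 5 g) : ℕ) : ℤ) ≤
      (s + 1) * (Q * (s ^ 5 * (s + c - 5))) := by
    have e1 := supE_le' hPOL s (stN s b 5 g)
    have e2 := supE_le' hPOL s (stR s 5 g)
    have e1' : ((supE s (stN s b 5 g) : ℕ) : ℤ) ≤ (s + 1) * (ev (stN s b 5 g) s : ℤ) := by
      exact_mod_cast e1
    have e2' : ((supE s (stR s 5 g) : ℕ) : ℤ) ≤ (s + 1) * (ev (stR s 5 g) s : ℤ) := by
      exact_mod_cast e2
    have h := hv 5 (by norm_num) le_rfl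
    have hl : (0 : ℤ) ≤ l := by positivity
    have e3 := mul_le_mul_of_nonneg_left e2' hl
    have hs1 : (0 : ℤ) ≤ (s : ℤ) + 1 := by positivity
    have h' := mul_le_mul_of_nonneg_left h hs1
    push_cast at h'
    nlinarith
  have n1 := nu_nonneg m (c - 1)
  have n2 := nu_nonneg m (c - 2)
  have n3 := nu_nonneg m (c - 3)
  have n4 := nu_nonneg m (c - 4)
  have n5 := nu_nonneg m (c - 5)
  have t1 := mul_le_mul_of_nonneg_right (hv 1 (by norm_num) (by norm_num)) n1
  have t2 := mul_le_mul_of_nonneg_right (hv 2 (by norm_num) (by norm_num)) n2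
  have t3 := mul_le_mul_of_nonneg_right (hv 3 (by norm_num) (by norm_num)) n3
  have t4 := mul_le_mul_of_nonneg_right (hv 4 (by norm_num) (by norm_num)) n4
  have t5 := mul_le_mul_of_nonneg_right hsup n5
  simp only [Finset.sum_insert, Finset.mem_insert, Finset.mem_singleton, Finset.sum_singleton,
    show ¬ (1 = 2 ∨ 1 = 3 ∨ 1 = 4 ∨ 1 = 5) by decide, show ¬ (2 = 3 ∨ 2 = 4 ∨ 2 = 5) by decide,
    show ¬ (3 = 4 ∨ 3 = 5) by decide, show ¬ (4 = 5) by decide, not_false_eq_true,
    show (1 < 5) = True by decide, show (2 < 5) = True by decide, show (3 < 5) = True by decide,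
    show (4 < 5) = True by decide, show (5 < 5) = False by decide, if_true, if_false, eva_single]
  unfold SS
  push_cast at t1 t2 t3 t4 t5 ⊢
  linarith

theorem CL_ge (hPOL : T_POL) (hLST : T_LST) (m s EW w l b c : ℕ) (g : List ℕ) (hb : 6 ≤ b)
    (hs : 6 ≤ s) (hc : c = l + b) :
    ev g s * nu m c - ev (dd s g) (s - 1) * SS m s c ≤
      eva m (CL s 5 (CU s EW 5 0) w g l b) c := by
  have h := full_le hPOL hLST m s l b c g hb hs hc
  unfold CL
  rw [hLST.1, hLST.2.1, eva_single]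
  have e : ∀ (w' : ℕ) (g' : List ℕ) (l' b' : ℕ), CU s EW 5 0 w' g' l' b' = [(ev g' s : ℤ)] :=
    fun _ _ _ _ => rfl
  simp only [e]
  linarith

theorem CU1_le (hPOL : T_POL) (hLST : T_LST) (m s w l b c : ℕ) (g : List ℕ) (hb : 10 ≤ b)
    (hs : 6 ≤ s) (hw : 1 ≤ w) (hc : c = l + b) :
    eva m (CU s 3 5 1 w g l b) c ≤ ev g s * nu m c -
      ∑ e ∈ Icc 1 (3 - w), (((ev (stN s b e g) s : ℤ) + l * (ev (stR s e g) s : ℤ)) *
        nu m (c - e) - ((ev (dd s (stN s b e g)) (s - 1) : ℤ) +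
          l * (ev (dd s (stR s e g)) (s - 1) : ℤ)) * SS m s (c - e)) := by
  have e0 : CU s 3 5 1 w g l b = zadd [(ev g s : ℤ)] (zsmul (-1) (mvl l (3 - w) (3 - w)
      (fun e => if e + 3 ≤ b then
        CL s 5 (CU s 3 5 0) (w + e) (stN s b e g) (l + 1) (b - (e + 1)) else [])
      (fun e => if e + 2 ≤ b then
        CL s 5 (CU s 3 5 0) (w + e) (stR s e g) l (b - e) else []))) := rfl
  rw [e0, hLST.1, hLST.2.1, eva_single, hLST.2.2.2]
  have h1 : ∑ e ∈ Icc 1 (3 - w), (((ev (stN s b e g) s : ℤ) + l * (ev (stR s e g) s : ℤ)) *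
        nu m (c - e) - ((ev (dd s (stN s b e g)) (s - 1) : ℤ) +
          l * (ev (dd s (stR s e g)) (s - 1) : ℤ)) * SS m s (c - e)) ≤
      ∑ e ∈ Icc 1 (3 - w), eva m (if e + 3 ≤ b then
        CL s 5 (CU s 3 5 0) (w + e) (stN s b e g) (l + 1) (b - (e + 1)) else []) (c - e) +
      l * ∑ e ∈ Icc 1 (3 - w), eva m (if e + 2 ≤ b then
        CL s 5 (CU s 3 5 0) (w + e) (stR s e g) l (b - e) else []) (c - e) := by
    rw [Finset.mul_sum, ← Finset.sum_add_distrib]
    apply Finset.sum_le_sum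
    intro e he
    rw [Finset.mem_Icc] at he
    have he2 : e ≤ 2 := by omega
    rw [if_pos (by omega), if_pos (by omega)]
    have a1 := CL_ge hPOL hLST m s 3 (w + e) (l + 1) (b - (e + 1)) (c - e) (stN s b e g)
      (by omega) hs (by omega)
    have a2 := CL_ge hPOL hLST m s 3 (w + e) l (b - e) (c - e) (stR s e g)
      (by omega) hs (by omega)
    have hl : (0 : ℤ) ≤ l := by positivity
    have a3 := mul_le_mul_of_nonneg_left a2 hl
    nlinarith
  linarith

end Pool.Agent.H71.GW
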