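import Pool.Agent.H71.GW.UNI

/-!
# Large radius (module UNI), second part: explicit values
-/

set_option autoImplicit false

open Finset

namespace Pool.Agent.H71.GW

theorem dd_of (hPOL : T_POL) (s x : ℕ) (g : List ℕ) (q : ℤ) (hx : x < s)
    (h : (ev g s : ℤ) - ev g x = (s - x) * q) : (ev (dd s g) x : ℤ) = q := by
  have h1 := hPOL.2.1 g s x hx.le
  have h2 : (((s - x) * ev (dd s g) x + ev g x : ℕ) : ℤ) = ev g s := by exact_mod_cast h1
  push_cast [Nat.cast_sub hx.le] at h2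
  have h3 : ((s : ℤ) - x) ≠ 0 := by
    have : (x : ℤ) < s := by exact_mod_cast hx
    linarith
  apply mul_left_cancel₀ h3
  linarith

theorem df1 (x : ℕ) : (x.descFactorial 1 : ℤ) = x := by simp

theorem df2 (x : ℕ) (hx : 1 ≤ x) : (x.descFactorial 2 : ℤ) = x * (x - 1) := by
  rw [Nat.descFactorial_succ, Nat.descFactorial_one]
  push_cast [Nat.cast_sub hx]; ring

theorem df3 (x : ℕ) (hx : 2 ≤ x) : (x.descFactorial 3 : ℤ) = x * (x - 1) * (x - 2) := by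
  rw [Nat.descFactorial_succ]
  push_cast [Nat.cast_sub hx, df2 x (by omega)]; ring

theorem df4 (x : ℕ) (hx : 3 ≤ x) :
    (x.descFactorial 4 : ℤ) = x * (x - 1) * (x - 2) * (x - 3) := by
  rw [Nat.descFactorial_succ]
  push_cast [Nat.cast_sub hx, df3 x (by omega)]; ring

section

variable (hPOL : T_POL)
include hPOL

theorem ev1N (a w x : ℕ) (hw : w ≤ a + 1) :
    (ev (g1N a w) x : ℤ) = (x + (a + 1 - w)) * x.descFactorial (w - 1) := by
  rw [ev_g1N hPOL]; push_cast [Nat.cast_sub hw]; ring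

theorem ev1R (w x : ℕ) : (ev (g1R w) x : ℤ) = x.descFactorial (w - 1) := by
  rw [ev_g1R hPOL]

theorem ddN1 (s a x : ℕ) (hx : x < s) : (ev (dd s (g1N a 1)) x : ℤ) = 1 := by
  apply dd_of hPOL s x _ _ hx
  rw [ev1N hPOL a 1 s (by omega), ev1N hPOL a 1 x (by omega)]
  simp

theorem ddR1 (s x : ℕ) (hx : x < s) : (ev (dd s (g1R 1)) x : ℤ) = 0 := by
  apply dd_of hPOL s x _ _ hx
  rw [ev1R hPOL 1 s, ev1R hPOL 1 x]
  simp

theorem ddN2 (s a x : ℕ) (ha : 1 ≤ a) (hx : x < s) :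
    (ev (dd s (g1N a 2)) x : ℤ) = s + x + a - 1 := by
  apply dd_of hPOL s x _ _ hx
  rw [ev1N hPOL a 2 s (by omega), ev1N hPOL a 2 x (by omega)]
  simp only [show 2 - 1 = 1 by norm_num, df1]
  push_cast
  ring

theorem ddR2 (s x : ℕ) (hx : x < s) : (ev (dd s (g1R 2)) x : ℤ) = 1 := by
  apply dd_of hPOL s x _ _ hx
  rw [ev1R hPOL 2 s, ev1R hPOL 2 x]
  simp

/-- values of the second polynomials at a point `x`, `e ≤ x ≤ s`, `1 ≤ e` -/
theorem ev2N (s b e x : ℕ) (g : List ℕ) (he : e ≤ b) :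
    (ev (stN s b e g) x : ℤ) = (x + (b - e)) * (x.descFactorial e * ev (dd s g) (x - e)) := by
  rw [ev_stN hPOL]; push_cast [Nat.cast_sub he]; ring

theorem ev2R (s e x : ℕ) (g : List ℕ) :
    (ev (stR s e g) x : ℤ) = x.descFactorial e * ev (dd s g) (x - e) := by
  rw [ev_stR hPOL]; push_cast; ring

theorem ddp (s : ℕ) (hs : 1 ≤ s) (g : List ℕ) :
    (ev (dd s g) (s - 1) : ℤ) = ev g s - ev g (s - 1) := by
  have h := dd_pred hPOL s hs g
  have h2 : ((ev (dd s g) (s - 1) + ev g (s - 1) : ℕ) : ℤ) = ev g s := by exact_mod_cast h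
  push_cast at h2
  linarith

/-- node values: weight 1, new, then `e = 1` -/
theorem nd11 (s a : ℕ) (hs : 10 ≤ s) (ha : 10 ≤ a) :
    (ev (stN s (a - 1) 1 (g1N a 1)) s : ℤ) = (s + a - 2) * s ∧
    (ev (dd s (stN s (a - 1) 1 (g1N a 1))) (s - 1) : ℤ) = 2 * s + a - 3 ∧
    (ev (stR s 1 (g1N a 1)) s : ℤ) = s ∧
    (ev (dd s (stR s 1 (g1N a 1))) (s - 1) : ℤ) = 1 := by
  have c1 : ((a - 1 : ℕ) : ℤ) = a - 1 := by push_cast [Nat.cast_sub (show 1 ≤ a by omega)]; ring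
  have c2 : ((s - 1 : ℕ) : ℤ) = s - 1 := by push_cast [Nat.cast_sub (show 1 ≤ s by omega)]; ring
  refine ⟨?_, ?_, ?_, ?_⟩
  · rw [ev2N hPOL s (a - 1) 1 s _ (by omega), ddN1 hPOL s a (s - 1) (by omega), df1, c1]
    push_cast; ring
  · rw [ddp hPOL s (by omega), ev2N hPOL s (a - 1) 1 s _ (by omega),
      ev2N hPOL s (a - 1) 1 (s - 1) _ (by omega), ddN1 hPOL s a (s - 1) (by omega),
      ddN1 hPOL s a (s - 1 - 1) (by omega), df1, df1, c1, c2]
    push_cast; ring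
  · rw [ev2R hPOL, ddN1 hPOL s a (s - 1) (by omega), df1]; ring
  · rw [ddp hPOL s (by omega), ev2R hPOL, ev2R hPOL, ddN1 hPOL s a (s - 1) (by omega),
      ddN1 hPOL s a (s - 1 - 1) (by omega), df1, df1, c2]
    ring

/-- node values: weight 1, new, then `e = 2` -/
theorem nd12 (s a : ℕ) (hs : 10 ≤ s) (ha : 10 ≤ a) :
    (ev (stN s (a - 1) 2 (g1N a 1)) s : ℤ) = (s + a - 3) * (s * (s - 1)) ∧
    (ev (dd s (stN s (a - 1) 2 (g1N a 1))) (s - 1) : ℤ) =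
      (s + a - 3) * (s * (s - 1)) - (s + a - 4) * ((s - 1) * (s - 2)) ∧
    (ev (stR s 2 (g1N a 1)) s : ℤ) = s * (s - 1) ∧
    (ev (dd s (stR s 2 (g1N a 1))) (s - 1) : ℤ) = s * (s - 1) - (s - 1) * (s - 2) := by
  have c1 : ((a - 1 : ℕ) : ℤ) = a - 1 := by push_cast [Nat.cast_sub (show 1 ≤ a by omega)]; ring
  have c2 : ((s - 1 : ℕ) : ℤ) = s - 1 := by push_cast [Nat.cast_sub (show 1 ≤ s by omega)]; ring
  refine ⟨?_, ?_, ?_, ?_⟩
  · rw [ev2N hPOL s (a - 1) 2 s _ (by omega), ddN1 hPOL s a (s - 2) (by omega),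
      df2 s (by omega), c1]
    push_cast; ring
  · rw [ddp hPOL s (by omega), ev2N hPOL s (a - 1) 2 s _ (by omega),
      ev2N hPOL s (a - 1) 2 (s - 1) _ (by omega), ddN1 hPOL s a (s - 2) (by omega),
      ddN1 hPOL s a (s - 1 - 2) (by omega), df2 s (by omega), df2 (s - 1) (by omega), c1, c2]
    push_cast; ring
  · rw [ev2R hPOL, ddN1 hPOL s a (s - 2) (by omega), df2 s (by omega)]; ring
  · rw [ddp hPOL s (by omega), ev2R hPOL, ev2R hPOL, ddN1 hPOL s a (s - 2) (by omega),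
      ddN1 hPOL s a (s - 1 - 2) (by omega), df2 s (by omega), df2 (s - 1) (by omega), c2]
    ring

/-- node values: weight 2, new, then `e = 1` -/
theorem nd21 (s a : ℕ) (hs : 10 ≤ s) (ha : 10 ≤ a) :
    (ev (stN s (a - 2) 1 (g1N a 2)) s : ℤ) = (s + a - 3) * (s * (2 * s + a - 2)) ∧
    (ev (dd s (stN s (a - 2) 1 (g1N a 2))) (s - 1) : ℤ) =
      (s + a - 3) * (s * (2 * s + a - 2)) - (s + a - 4) * ((s - 1) * (2 * s + a - 3)) ∧
    (ev (stR s 1 (g1N a 2)) s : ℤ) = s * (2 * s + a - 2) ∧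
    (ev (dd s (stR s 1 (g1N a 2))) (s - 1) : ℤ) =
      s * (2 * s + a - 2) - (s - 1) * (2 * s + a - 3) := by
  have c1 : ((a - 2 : ℕ) : ℤ) = a - 2 := by push_cast [Nat.cast_sub (show 2 ≤ a by omega)]; ring
  have c2 : ((s - 1 : ℕ) : ℤ) = s - 1 := by push_cast [Nat.cast_sub (show 1 ≤ s by omega)]; ring
  have c3 : ((s - 1 - 1 : ℕ) : ℤ) = s - 2 := by
    rw [show s - 1 - 1 = s - 2 by omega]
    push_cast [Nat.cast_sub (show 2 ≤ s by omega)]; ring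
  refine ⟨?_, ?_, ?_, ?_⟩
  · rw [ev2N hPOL s (a - 2) 1 s _ (by omega), ddN2 hPOL s a (s - 1) (by omega) (by omega),
      df1, c1, c2]
    push_cast; ring
  · rw [ddp hPOL s (by omega), ev2N hPOL s (a - 2) 1 s _ (by omega),
      ev2N hPOL s (a - 2) 1 (s - 1) _ (by omega), ddN2 hPOL s a (s - 1) (by omega) (by omega),
      ddN2 hPOL s a (s - 1 - 1) (by omega) (by omega), df1, df1, c1, c3, c2]
    push_cast; ring
  · rw [ev2R hPOL, ddN2 hPOL s a (s - 1) (by omega) (by omega), df1, c2]; ring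
  · rw [ddp hPOL s (by omega), ev2R hPOL, ev2R hPOL,
      ddN2 hPOL s a (s - 1) (by omega) (by omega),
      ddN2 hPOL s a (s - 1 - 1) (by omega) (by omega), df1, df1, c3, c2]
    ring

/-- node values: weight 1, raise -/
theorem nd1R (s b e : ℕ) (hs : 10 ≤ s) (he : e ≤ b) (he1 : 1 ≤ e) (he2 : e ≤ 5) :
    (ev (stN s b e (g1R 1)) s : ℤ) = 0 ∧
    (ev (dd s (stN s b e (g1R 1))) (s - 1) : ℤ) = 0 ∧
    (ev (stR s e (g1R 1)) s : ℤ) = 0 ∧
    (ev (dd s (stR s e (g1R 1))) (s - 1) : ℤ) = 0 := by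
  refine ⟨?_, ?_, ?_, ?_⟩
  · rw [ev2N hPOL s b e s _ he, ddR1 hPOL s (s - e) (by omega)]; ring
  · rw [ddp hPOL s (by omega), ev2N hPOL s b e s _ he, ev2N hPOL s b e (s - 1) _ he,
      ddR1 hPOL s (s - e) (by omega), ddR1 hPOL s (s - 1 - e) (by omega)]; ring
  · rw [ev2R hPOL, ddR1 hPOL s (s - e) (by omega)]; ring
  · rw [ddp hPOL s (by omega), ev2R hPOL, ev2R hPOL, ddR1 hPOL s (s - e) (by omega),
      ddR1 hPOL s (s - 1 - e) (by omega)]; ring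

/-- node values: weight 2, raise, then `e = 1` -/
theorem nd2R (s a : ℕ) (hs : 10 ≤ s) (ha : 10 ≤ a) :
    (ev (stN s (a - 1) 1 (g1R 2)) s : ℤ) = (s + a - 2) * s ∧
    (ev (dd s (stN s (a - 1) 1 (g1R 2))) (s - 1) : ℤ) =
      (s + a - 2) * s - (s + a - 3) * (s - 1) ∧
    (ev (stR s 1 (g1R 2)) s : ℤ) = s ∧
    (ev (dd s (stR s 1 (g1R 2))) (s - 1) : ℤ) = 1 := by
  have c1 : ((a - 1 : ℕ) : ℤ) = a - 1 := by push_cast [Nat.cast_sub (show 1 ≤ a by omega)]; ring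
  have c2 : ((s - 1 : ℕ) : ℤ) = s - 1 := by push_cast [Nat.cast_sub (show 1 ≤ s by omega)]; ring
  refine ⟨?_, ?_, ?_, ?_⟩
  · rw [ev2N hPOL s (a - 1) 1 s _ (by omega), ddR2 hPOL s (s - 1) (by omega), df1, c1]
    push_cast; ring
  · rw [ddp hPOL s (by omega), ev2N hPOL s (a - 1) 1 s _ (by omega),
      ev2N hPOL s (a - 1) 1 (s - 1) _ (by omega), ddR2 hPOL s (s - 1) (by omega),
      ddR2 hPOL s (s - 1 - 1) (by omega), df1, df1, c1, c2]
    push_cast; ring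
  · rw [ev2R hPOL, ddR2 hPOL s (s - 1) (by omega), df1]; ring
  · rw [ddp hPOL s (by omega), ev2R hPOL, ev2R hPOL, ddR2 hPOL s (s - 1) (by omega),
      ddR2 hPOL s (s - 1 - 1) (by omega), df1, df1, c2]
    ring

end

end Pool.Agent.H71.GW
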