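import Pool.Agent.H71.GW.UNI2

/-!
# Large radius (module UNI), third part: bounds for the two lists
-/

set_option autoImplicit false

open Finset

namespace Pool.Agent.H71.GW

theorem Icc12 : (Icc 1 2 : Finset ℕ) = {1, 2} := by decide
theorem Icc11 : (Icc 1 1 : Finset ℕ) = {1} := by decide
theorem Icc10 : (Icc 1 0 : Finset ℕ) = ∅ := by decide
theorem Icc15 : (Icc 1 5 : Finset ℕ) = {1, 2, 3, 4, 5} := by decide
theorem Icc14 : (Icc 1 4 : Finset ℕ) = {1, 2, 3, 4} := by decide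

theorem SS_nonneg (m s c : ℕ) (hc : 5 ≤ c) : 0 ≤ SS m s c := by
  unfold SS
  have n1 := nu_nonneg m (c - 1)
  have n2 := nu_nonneg m (c - 2)
  have n3 := nu_nonneg m (c - 3)
  have n4 := nu_nonneg m (c - 4)
  have n5 := nu_nonneg m (c - 5)
  have hs : (0 : ℤ) ≤ s := by positivity
  have h1 : (0 : ℤ) ≤ s + c - 1 := by
    have : (5 : ℤ) ≤ c := by exact_mod_cast hc
    linarith
  have h2 : (0 : ℤ) ≤ s + c - 2 := by
    have : (5 : ℤ) ≤ c := by exact_mod_cast hc
    linarith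
  have h3 : (0 : ℤ) ≤ s + c - 3 := by
    have : (5 : ℤ) ≤ c := by exact_mod_cast hc
    linarith
  have h4 : (0 : ℤ) ≤ s + c - 4 := by
    have : (5 : ℤ) ≤ c := by exact_mod_cast hc
    linarith
  have h5 : (0 : ℤ) ≤ s + c - 5 := by
    have : (5 : ℤ) ≤ c := by exact_mod_cast hc
    linarith
  positivity

section

variable (hPOL : T_POL) (hLST : T_LST)
include hPOL hLST

theorem cu1N (m s l a c : ℕ) (hs : 10 ≤ s) (ha : 20 ≤ a) (hc : c = a + l) :
    eva m (CU s 3 5 1 1 (g1N a 1) (l + 1) (a + 1 - (1 + 1))) c ≤ (s + a) * nu m c -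
      (((s + a - 2) * s + (l + 1) * s) * nu m (c - 1) -
        ((2 * s + a - 3) + (l + 1)) * SS m s (c - 1)) -
      (((s + a - 3) * (s * (s - 1)) + (l + 1) * (s * (s - 1))) * nu m (c - 2) -
        (((s + a - 3) * (s * (s - 1)) - (s + a - 4) * ((s - 1) * (s - 2))) +
          (l + 1) * (s * (s - 1) - (s - 1) * (s - 2))) * SS m s (c - 2)) := by
  have h := CU1_le hPOL hLST m s 1 (l + 1) (a + 1 - (1 + 1)) c (g1N a 1) (by omega) (by omega)
    le_rfl (by omega)
  rw [show 3 - 1 = 2 by norm_num, Icc12, Finset.sum_pair (by norm_num),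
    show a + 1 - (1 + 1) = a - 1 by omega] at h
  obtain ⟨h1, h2, h3, h4⟩ := nd11 hPOL s a hs (by omega)
  obtain ⟨k1, k2, k3, k4⟩ := nd12 hPOL s a hs (by omega)
  rw [h1, h2, h3, h4, k1, k2, k3, k4] at h
  have e1 : (ev (g1N a 1) s : ℤ) = s + a := by
    rw [ev1N hPOL a 1 s (by omega)]; simp
  rw [e1] at h
  rw [show a + 1 - (1 + 1) = a - 1 by omega]
  push_cast at h ⊢
  linarith

theorem cu2N (m s l a c : ℕ) (hs : 10 ≤ s) (ha : 20 ≤ a) (hc : c = a - 1 + l) :
    eva m (CU s 3 5 1 2 (g1N a 2) (l + 1) (a + 1 - (2 + 1))) c ≤ (s + a - 1) * s * nu m c -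
      (((s + a - 3) * (s * (2 * s + a - 2)) + (l + 1) * (s * (2 * s + a - 2))) * nu m (c - 1) -
        (((s + a - 3) * (s * (2 * s + a - 2)) - (s + a - 4) * ((s - 1) * (2 * s + a - 3))) +
        (l + 1) * (s * (2 * s + a - 2) - (s - 1) * (2 * s + a - 3))) * SS m s (c - 1)) := by
  have h := CU1_le hPOL hLST m s 2 (l + 1) (a + 1 - (2 + 1)) c (g1N a 2) (by omega) (by omega)
    (by norm_num) (by omega)
  rw [show 3 - 2 = 1 by norm_num, Icc11, Finset.sum_singleton,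
    show a + 1 - (2 + 1) = a - 2 by omega] at h
  obtain ⟨h1, h2, h3, h4⟩ := nd21 hPOL s a hs (by omega)
  rw [h1, h2, h3, h4] at h
  have e1 : (ev (g1N a 2) s : ℤ) = (s + a - 1) * s := by
    rw [ev1N hPOL a 2 s (by omega), show 2 - 1 = 1 by norm_num, df1]; push_cast; ring
  rw [e1] at h
  rw [show a + 1 - (2 + 1) = a - 2 by omega]
  push_cast at h ⊢
  linarith

theorem cu1R (m s l a c : ℕ) (hs : 10 ≤ s) (ha : 20 ≤ a) (hc : c = a + l) :
    eva m (CU s 3 5 1 1 (g1R 1) l (a + 1 - 1)) c ≤ nu m c := by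
  have h := CU1_le hPOL hLST m s 1 l (a + 1 - 1) c (g1R 1) (by omega) (by omega)
    le_rfl (by omega)
  rw [show 3 - 1 = 2 by norm_num, Icc12, Finset.sum_pair (by norm_num)] at h
  obtain ⟨h1, h2, h3, h4⟩ := nd1R hPOL s (a + 1 - 1) 1 hs (by omega) le_rfl (by norm_num)
  obtain ⟨k1, k2, k3, k4⟩ := nd1R hPOL s (a + 1 - 1) 2 hs (by omega) (by norm_num) (by norm_num)
  rw [h1, h2, h3, h4, k1, k2, k3, k4] at h
  have e1 : (ev (g1R 1) s : ℤ) = 1 := by
    rw [ev1R hPOL 1 s]; simp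
  rw [e1] at h
  linarith

theorem cu2R (m s l a c : ℕ) (hs : 10 ≤ s) (ha : 20 ≤ a) (hc : c = a - 1 + l) :
    eva m (CU s 3 5 1 2 (g1R 2) l (a + 1 - 2)) c ≤ s * nu m c -
      (((s + a - 2) * s + l * s) * nu m (c - 1) -
        (((s + a - 2) * s - (s + a - 3) * (s - 1)) + l * 1) * SS m s (c - 1)) := by
  have h := CU1_le hPOL hLST m s 2 l (a + 1 - 2) c (g1R 2) (by omega) (by omega)
    (by norm_num) (by omega)
  rw [show 3 - 2 = 1 by norm_num, Icc11, Finset.sum_singleton,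
    show a + 1 - 2 = a - 1 by omega] at h
  obtain ⟨h1, h2, h3, h4⟩ := nd2R hPOL s a hs (by omega)
  rw [h1, h2, h3, h4] at h
  have e1 : (ev (g1R 2) s : ℤ) = s := by
    rw [ev1R hPOL 2 s, show 2 - 1 = 1 by norm_num, df1]
  rw [e1] at h
  rw [show a + 1 - 2 = a - 1 by omega]
  linarith

theorem cu3 (m s w l b c : ℕ) (g : List ℕ) (hw : 3 ≤ w) (hb : 10 ≤ b) (hs : 10 ≤ s)
    (hc : c = l + b) : eva m (CU s 3 5 1 w g l b) c ≤ ev g s * nu m c := by
  have h := CU1_le hPOL hLST m s w l b c g hb (by omega) (by omega) hc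
  rw [show 3 - w = 0 by omega, Icc10, Finset.sum_empty] at h
  linarith

/-- the bound for the certificate -/
theorem cup_le (m s l a A : ℕ) (hs : 10 ≤ s) (ha : 20 ≤ a) (hA : A = a + 1 + l) :
    eva m (CUP s a l 3 5 1) A ≤
      (s + A - 1) * nu m (A - 1) + (s + A - 2) * s * nu m (A - 2) -
      (s + A - 2) * s * nu m (A - 2) +
      (s + A - 3) * (s * (s - 1)) * nu m (A - 3) -
      (s + A - 3) * (s * (s - 1)) * nu m (A - 3) -
      ((s + A - 3) * (s * (2 * s + a - 2)) + l * ((s + a - 2 + l) * s)) * nu m (A - 3) +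
      (s + A - 4) * (s * (s - 1) * (s - 2)) * nu m (A - 4) +
      (s + 1) * ((s + A - 5) * (s * (s - 1) * (s - 2) * (s - 3))) * nu m (A - 5) +
      (2 * s + A - 3) * SS m s (A - 2) +
      (((s + A - 3) * (s * (s - 1)) - (s + A - 4) * ((s - 1) * (s - 2))) +
        ((s + A - 3) * (s * (2 * s + a - 2)) - (s + A - 4) * ((s - 1) * (2 * s + a - 3))) +
        l * ((s + a - 2 + l) * s - (s + a - 3 + l) * (s - 1))) * SS m s (A - 3) := by
  unfold CUP
  rw [hLST.2.2.2, show min 5 a = 5 by omega, show min 5 (a + 1) = 5 by omega, Icc15]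
  simp only [Finset.sum_insert, Finset.mem_insert, Finset.mem_singleton, Finset.sum_singleton,
    show ¬ (1 = 2 ∨ 1 = 3 ∨ 1 = 4 ∨ 1 = 5) by decide, show ¬ (2 = 3 ∨ 2 = 4 ∨ 2 = 5) by decide,
    show ¬ (3 = 4 ∨ 3 = 5) by decide, show ¬ (4 = 5) by decide, not_false_eq_true,
    show (1 < 5) = True by decide, show (2 < 5) = True by decide, show (3 < 5) = True by decide,
    show (4 < 5) = True by decide, show (5 < 5) = False by decide, if_true, if_false, eva_single]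
  have hl : (0 : ℤ) ≤ l := by positivity
  have a1 := cu1N hPOL hLST m s l a (A - 1) hs ha (by omega)
  have a2 := cu2N hPOL hLST m s l a (A - 2) hs ha (by omega)
  have a3 := cu3 hPOL hLST m s 3 (l + 1) (a + 1 - (3 + 1)) (A - 3) (g1N a 3) le_rfl (by omega) hs
    (by omega)
  have a4 := cu3 hPOL hLST m s 4 (l + 1) (a + 1 - (4 + 1)) (A - 4) (g1N a 4) (by omega) (by omega)
    hs (by omega)
  have b1 := mul_le_mul_of_nonneg_left (cu1R hPOL hLST m s l a (A - 1) hs ha (by omega)) hl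
  have b2 := mul_le_mul_of_nonneg_left (cu2R hPOL hLST m s l a (A - 2) hs ha (by omega)) hl
  have b3 := mul_le_mul_of_nonneg_left (cu3 hPOL hLST m s 3 l (a + 1 - 3) (A - 3) (g1R 3) le_rfl
    (by omega) hs (by omega)) hl
  have b4 := mul_le_mul_of_nonneg_left (cu3 hPOL hLST m s 4 l (a + 1 - 4) (A - 4) (g1R 4)
    (by omega) (by omega) hs (by omega)) hl
  have s1 : (supE s (g1N a 5) : ℤ) ≤ (s + 1) * (ev (g1N a 5) s : ℤ) := by
    exact_mod_cast supE_le' hPOL s (g1N a 5)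
  have s2 : (supE s (g1R 5) : ℤ) ≤ (s + 1) * (ev (g1R 5) s : ℤ) := by
    exact_mod_cast supE_le' hPOL s (g1R 5)
  have n5 := nu_nonneg m (A - 5)
  have s1' := mul_le_mul_of_nonneg_right s1 n5
  have s2' := mul_le_mul_of_nonneg_left (mul_le_mul_of_nonneg_right s2 n5) hl
  rw [ev1N hPOL a 3 s (by omega), show 3 - 1 = 2 by norm_num, df2 s (by omega)] at a3
  rw [ev1N hPOL a 4 s (by omega), show 4 - 1 = 3 by norm_num, df3 s (by omega)] at a4
  rw [ev1R hPOL 3 s, show 3 - 1 = 2 by norm_num, df2 s (by omega)] at b3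
  rw [ev1R hPOL 4 s, show 4 - 1 = 3 by norm_num, df3 s (by omega)] at b4
  rw [ev1N hPOL a 5 s (by omega), show 5 - 1 = 4 by norm_num, df4 s (by omega)] at s1'
  rw [ev1R hPOL 5 s, show 5 - 1 = 4 by norm_num, df4 s (by omega)] at s2'
  have hAz : (A : ℤ) = a + 1 + l := by exact_mod_cast hA
  rw [show A - 1 - 1 = A - 2 by omega, show A - 1 - 2 = A - 3 by omega] at a1
  rw [show A - 2 - 1 = A - 3 by omega] at a2 b2
  have key := add_le_add (add_le_add (add_le_add (add_le_add a1 a2) (add_le_add a3 a4))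
    (add_le_add s1' s2')) (add_le_add (add_le_add b1 b2) (add_le_add b3 b4))
  refine le_trans (le_of_eq ?_) (le_trans key (le_of_eq ?_))
  · push_cast; ring
  · rw [hAz]; push_cast; ring

end

end Pool.Agent.H71.GW
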