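import Pool.Agent.H71.GW.UNI3

/-!
# Large radius (module UNI), fourth part: the gain and the final inequality
-/

set_option autoImplicit false

open Finset

namespace Pool.Agent.H71.GW

section

variable (hPOL : T_POL) (hLST : T_LST)
include hPOL hLST

theorem CHS_eva (m s w l b c : ℕ) (g : List ℕ) :
    eva m (CHS s 5 (CH s 3 5 0) w g l b) c = (s * ev (dd s g) (s - 1)) * nu m c := by
  unfold CHS
  rw [hLST.1, eva_single, hLST.2.2.2]
  have e : ∀ (w' : ℕ) (g' : List ℕ) (l' b' : ℕ), CH s 3 5 0 w' g' l' b' = [] :=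
    fun _ _ _ _ => rfl
  simp only [e, eva, Finset.sum_const_zero]
  push_cast; ring

theorem CH1_eva (m s w l b c : ℕ) (g : List ℕ) (hb : 10 ≤ b) (hw : 1 ≤ w) :
    eva m (CH s 3 5 1 w g l b) c = ∑ e ∈ Icc 1 (3 - w),
      (s * (ev (dd s (stN s b e g)) (s - 1) + l * ev (dd s (stR s e g)) (s - 1)) : ℤ) *
        nu m (c - e) := by
  have e0 : CH s 3 5 1 w g l b = mvl l (3 - w) (3 - w)
      (fun e => if e + 3 ≤ b then
        CHS s 5 (CH s 3 5 0) (w + e) (stN s b e g) (l + 1) (b - (e + 1)) else [])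
      (fun e => if e + 2 ≤ b then
        CHS s 5 (CH s 3 5 0) (w + e) (stR s e g) l (b - e) else []) := rfl
  rw [e0, hLST.2.2.2, Finset.mul_sum, ← Finset.sum_add_distrib]
  apply Finset.sum_congr rfl
  intro e he
  rw [Finset.mem_Icc] at he
  rw [if_pos (by omega), if_pos (by omega), CHS_eva hPOL hLST, CHS_eva hPOL hLST]
  ring

theorem ev_zero_cons (g : List ℕ) (x : ℕ) : ev (0 :: g) x = x * ev g (x - 1) := by
  simp [ev]

theorem gg1N (m s l a c : ℕ) (hs : 10 ≤ s) (ha : 20 ≤ a) (hc : c = a - 1 + l) :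
    s * nu m c - SS m s c - s * ((2 * s + a - 3) + (l + 1)) * nu m (c - 1) -
      s * (((s + a - 3) * (s * (s - 1)) - (s + a - 4) * ((s - 1) * (s - 2))) +
          (l + 1) * (s * (s - 1) - (s - 1) * (s - 2))) * nu m (c - 2) ≤
      eva m (CGG s 3 5 1 1 (g1N a 1) (l + 1) (a + 1 - (1 + 1))) c := by
  unfold CGG
  rw [hLST.1, hLST.2.1, if_pos ⟨by norm_num, by omega⟩]
  have h := CL_ge hPOL hLST m s 3 1 (l + 1) (a + 1 - (1 + 1) - 1) c (0 :: dd s (g1N a 1))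
    (by omega) (by omega) (by omega)
  have c2 : ((s - 1 : ℕ) : ℤ) = s - 1 := by push_cast [Nat.cast_sub (show 1 ≤ s by omega)]; ring
  have e1 : (ev (0 :: dd s (g1N a 1)) s : ℤ) = s := by
    rw [ev_zero_cons hPOL hLST]; push_cast; rw [ddN1 hPOL s a (s - 1) (by omega)]; ring
  have e2 : (ev (dd s (0 :: dd s (g1N a 1))) (s - 1) : ℤ) = 1 := by
    rw [ddp hPOL s (by omega), e1, ev_zero_cons hPOL hLST]; push_cast
    rw [ddN1 hPOL s a (s - 1 - 1) (by omega), c2]; ring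
  rw [e1, e2] at h
  have k := CH1_eva hPOL hLST m s 1 (l + 1) (a + 1 - (1 + 1)) c (g1N a 1) (by omega) le_rfl
  rw [show 3 - 1 = 2 by norm_num, Icc12, Finset.sum_pair (by norm_num),
    show a + 1 - (1 + 1) = a - 1 by omega] at k
  obtain ⟨h1, h2, h3, h4⟩ := nd11 hPOL s a hs (by omega)
  obtain ⟨k1, k2, k3, k4⟩ := nd12 hPOL s a hs (by omega)
  rw [h2, h4, k2, k4] at k
  rw [show a + 1 - (1 + 1) = a - 1 by omega] at h ⊢
  rw [k]
  push_cast at h ⊢
  linarith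

theorem gg2N (m s l a c : ℕ) (hs : 10 ≤ s) (ha : 20 ≤ a) (hc : c = a - 2 + l) :
    s * (2 * s + a - 2) * nu m c - (3 * s + a - 3) * SS m s c -
      s * (((s + a - 3) * (s * (2 * s + a - 2)) - (s + a - 4) * ((s - 1) * (2 * s + a - 3))) +
        (l + 1) * (s * (2 * s + a - 2) - (s - 1) * (2 * s + a - 3))) * nu m (c - 1) ≤
      eva m (CGG s 3 5 1 2 (g1N a 2) (l + 1) (a + 1 - (2 + 1))) c := by
  unfold CGG
  rw [hLST.1, hLST.2.1, if_pos ⟨by norm_num, by omega⟩]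
  have h := CL_ge hPOL hLST m s 3 2 (l + 1) (a + 1 - (2 + 1) - 1) c (0 :: dd s (g1N a 2))
    (by omega) (by omega) (by omega)
  have c2 : ((s - 1 : ℕ) : ℤ) = s - 1 := by push_cast [Nat.cast_sub (show 1 ≤ s by omega)]; ring
  have c3 : ((s - 1 - 1 : ℕ) : ℤ) = s - 2 := by
    rw [show s - 1 - 1 = s - 2 by omega]
    push_cast [Nat.cast_sub (show 2 ≤ s by omega)]; ring
  have e1 : (ev (0 :: dd s (g1N a 2)) s : ℤ) = s * (2 * s + a - 2) := by
    rw [ev_zero_cons hPOL hLST]; push_cast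
    rw [ddN2 hPOL s a (s - 1) (by omega) (by omega), c2]; ring
  have e2 : (ev (dd s (0 :: dd s (g1N a 2))) (s - 1) : ℤ) = 3 * s + a - 3 := by
    rw [ddp hPOL s (by omega), e1, ev_zero_cons hPOL hLST]; push_cast
    rw [ddN2 hPOL s a (s - 1 - 1) (by omega) (by omega), c2, c3]; ring
  rw [e1, e2] at h
  have k := CH1_eva hPOL hLST m s 2 (l + 1) (a + 1 - (2 + 1)) c (g1N a 2) (by omega) (by norm_num)
  rw [show 3 - 2 = 1 by norm_num, Icc11, Finset.sum_singleton,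
    show a + 1 - (2 + 1) = a - 2 by omega] at k
  obtain ⟨h1, h2, h3, h4⟩ := nd21 hPOL s a hs (by omega)
  rw [h2, h4] at k
  rw [show a + 1 - (2 + 1) = a - 2 by omega] at h ⊢
  rw [k]
  push_cast at h ⊢
  linarith

theorem gg1R (m s l a c : ℕ) (hs : 10 ≤ s) (ha : 20 ≤ a) (hc : c = a - 1 + l) :
    0 ≤ eva m (CGG s 3 5 1 1 (g1R 1) l (a + 1 - 1)) c := by
  unfold CGG
  rw [hLST.1, hLST.2.1, if_pos ⟨by norm_num, by omega⟩]
  have h := CL_ge hPOL hLST m s 3 1 l (a + 1 - 1 - 1) c (0 :: dd s (g1R 1))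
    (by omega) (by omega) (by omega)
  have e1 : (ev (0 :: dd s (g1R 1)) s : ℤ) = 0 := by
    rw [ev_zero_cons hPOL hLST]; push_cast; rw [ddR1 hPOL s (s - 1) (by omega)]; ring
  have e2 : (ev (dd s (0 :: dd s (g1R 1))) (s - 1) : ℤ) = 0 := by
    rw [ddp hPOL s (by omega), e1, ev_zero_cons hPOL hLST]; push_cast
    rw [ddR1 hPOL s (s - 1 - 1) (by omega)]; ring
  rw [e1, e2] at h
  have k := CH1_eva hPOL hLST m s 1 l (a + 1 - 1) c (g1R 1) (by omega) le_rfl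
  rw [show 3 - 1 = 2 by norm_num, Icc12, Finset.sum_pair (by norm_num)] at k
  obtain ⟨h1, h2, h3, h4⟩ := nd1R hPOL s (a + 1 - 1) 1 hs (by omega) le_rfl (by norm_num)
  obtain ⟨k1, k2, k3, k4⟩ := nd1R hPOL s (a + 1 - 1) 2 hs (by omega) (by norm_num) (by norm_num)
  rw [h2, h4, k2, k4] at k
  rw [k]
  linarith

theorem gg2R (m s l a c : ℕ) (hs : 10 ≤ s) (ha : 20 ≤ a) (hc : c = a - 2 + l) :
    s * nu m c - SS m s c -
      s * (((s + a - 2) * s - (s + a - 3) * (s - 1)) + l * 1) * nu m (c - 1) ≤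
      eva m (CGG s 3 5 1 2 (g1R 2) l (a + 1 - 2)) c := by
  unfold CGG
  rw [hLST.1, hLST.2.1, if_pos ⟨by norm_num, by omega⟩]
  have h := CL_ge hPOL hLST m s 3 2 l (a + 1 - 2 - 1) c (0 :: dd s (g1R 2))
    (by omega) (by omega) (by omega)
  have c2 : ((s - 1 : ℕ) : ℤ) = s - 1 := by push_cast [Nat.cast_sub (show 1 ≤ s by omega)]; ring
  have e1 : (ev (0 :: dd s (g1R 2)) s : ℤ) = s := by
    rw [ev_zero_cons hPOL hLST]; push_cast; rw [ddR2 hPOL s (s - 1) (by omega)]; ring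
  have e2 : (ev (dd s (0 :: dd s (g1R 2))) (s - 1) : ℤ) = 1 := by
    rw [ddp hPOL s (by omega), e1, ev_zero_cons hPOL hLST]; push_cast
    rw [ddR2 hPOL s (s - 1 - 1) (by omega), c2]; ring
  rw [e1, e2] at h
  have k := CH1_eva hPOL hLST m s 2 l (a + 1 - 2) c (g1R 2) (by omega) (by norm_num)
  rw [show 3 - 2 = 1 by norm_num, Icc11, Finset.sum_singleton,
    show a + 1 - 2 = a - 1 by omega] at k
  obtain ⟨h1, h2, h3, h4⟩ := nd2R hPOL s a hs (by omega)
  rw [h2, h4] at k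
  rw [show a + 1 - 2 = a - 1 by omega] at h ⊢
  rw [k]
  push_cast at h ⊢
  linarith

theorem gg3 (m s w l b c : ℕ) (g : List ℕ) (hw : 3 ≤ w) (hb : 10 ≤ b) :
    eva m (CGG s 3 5 1 w g l b) c = 0 := by
  unfold CGG
  rw [hLST.1, hLST.2.1, if_neg (by omega)]
  have k := CH1_eva hPOL hLST m s w l b c g hb (by omega)
  rw [show 3 - w = 0 by omega, Icc10, Finset.sum_empty] at k
  rw [k]
  simp [eva]

theorem cgain_ge (m s l a A : ℕ) (hs : 10 ≤ s) (ha : 20 ≤ a) (hA : A = a + 1 + l) :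
    s * nu m (A - 2) - SS m s (A - 2) + (s * (2 * s + a - 2) + l * s) * nu m (A - 3) -
      ((3 * s + a - 3) + l) * SS m s (A - 3) - s * (2 * s + A - 3) * nu m (A - 3) -
      s * (((s + A - 3) * (s * (s - 1)) - (s + A - 4) * ((s - 1) * (s - 2))) +
        ((s + A - 3) * (s * (2 * s + a - 2)) - (s + A - 4) * ((s - 1) * (2 * s + a - 3))) +
        l * ((s + a - 2 + l) * s - (s + a - 3 + l) * (s - 1))) * nu m (A - 4) ≤
      eva m (CGAIN s a l 3 5 1) (A - 1) := by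
  unfold CGAIN
  rw [hLST.2.2.2, show min 5 a - 1 = 4 by omega, show min 5 (a + 1) - 1 = 4 by omega, Icc14]
  simp only [Finset.sum_insert, Finset.mem_insert, Finset.mem_singleton, Finset.sum_singleton,
    show ¬ (1 = 2 ∨ 1 = 3 ∨ 1 = 4) by decide, show ¬ (2 = 3 ∨ 2 = 4) by decide,
    show ¬ (3 = 4) by decide, not_false_eq_true]
  have hl : (0 : ℤ) ≤ l := by positivity
  have a1 := gg1N hPOL hLST m s l a (A - 1 - 1) hs ha (by omega)
  have a2 := gg2N hPOL hLST m s l a (A - 1 - 2) hs ha (by omega)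
  have a3 := gg3 hPOL hLST m s 3 (l + 1) (a + 1 - (3 + 1)) (A - 1 - 3) (g1N a 3) le_rfl (by omega)
  have a4 := gg3 hPOL hLST m s 4 (l + 1) (a + 1 - (4 + 1)) (A - 1 - 4) (g1N a 4) (by norm_num)
    (by omega)
  have b1 := mul_nonneg hl (gg1R hPOL hLST m s l a (A - 1 - 1) hs ha (by omega))
  have b2 := mul_le_mul_of_nonneg_left (gg2R hPOL hLST m s l a (A - 1 - 2) hs ha (by omega)) hl
  have b3 := gg3 hPOL hLST m s 3 l (a + 1 - 3) (A - 1 - 3) (g1R 3) le_rfl (by omega)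
  have b4 := gg3 hPOL hLST m s 4 l (a + 1 - 4) (A - 1 - 4) (g1R 4) (by norm_num) (by omega)
  rw [a3, a4, b3, b4]
  have hAz : (A : ℤ) = a + 1 + l := by exact_mod_cast hA
  rw [show A - 1 - 1 = A - 2 by omega, show A - 2 - 1 = A - 3 by omega,
    show A - 2 - 2 = A - 4 by omega] at a1
  rw [show A - 1 - 2 = A - 3 by omega, show A - 3 - 1 = A - 4 by omega] at a2 b2
  rw [show A - 1 - 1 = A - 2 by omega] at b1
  rw [show A - 1 - 1 = A - 2 by omega, show A - 1 - 2 = A - 3 by omega]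
  have key := add_le_add (add_le_add a1 a2) (add_le_add b1 b2)
  refine le_trans (le_of_eq ?_) (le_trans key (le_of_eq ?_))
  · rw [hAz]; push_cast; ring
  · ring

end

end Pool.Agent.H71.GW
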