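import Pool.Agent.H71.GW.UNI4

/-!
# Large radius (module UNI), fifth part: the theorem
-/

set_option autoImplicit false

open Finset

namespace Pool.Agent.H71.GW

theorem nu_succ (m c : ℕ) (hc : c ≤ m) : nu m (c + 1) = 2 * ((m : ℤ) - c) * nu m c := by
  unfold nu
  rw [Nat.descFactorial_succ]
  push_cast [Nat.cast_sub hc]
  ring

theorem nu_pos (m c : ℕ) (hc : c ≤ m) : 0 < nu m c := by
  unfold nu
  have := Nat.pow_sub_lt_descFactorial (n := m) (k := c)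
  have h : 0 < m.descFactorial c := Nat.pos_of_ne_zero fun h => by
    rw [Nat.descFactorial_eq_zero_iff_lt] at h; omega
  positivity

/-- the coefficients -/
def W3 (s a A l : ℤ) : ℤ :=
  ((s + A - 3) * (s * (s - 1)) - (s + A - 4) * ((s - 1) * (s - 2))) +
    ((s + A - 3) * (s * (2 * s + a - 2)) - (s + A - 4) * ((s - 1) * (2 * s + a - 3))) +
    l * ((s + a - 2 + l) * s - (s + a - 3 + l) * (s - 1))

theorem coefs (s a A l : ℤ) (hs : 80 ≤ s) (h : (a = s + 1 ∧ A = s + 2 ∧ l = 0) ∨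
    (a = s - 1 ∧ A = s + 1 ∧ l = 1)) :
    (-((s + A - 3) * (s * (2 * s + a - 2)) + l * ((s + a - 2 + l) * s)) +
        (2 * s + A - 2) * (s * (s + A - 3)) - (s * (2 * s + a - 2) + l * s) +
        s * (2 * s + A - 3)) ≤ 2 * s ^ 2 ∧
    ((s + A - 4) * (s * (s - 1) * (s - 2)) + (2 * s + A - 2) * (s ^ 2 * (s + A - 4)) +
        (W3 s a A l + (3 * s + a - 3) + l) * (s * (s + A - 4)) + s * W3 s a A l) ≤ 42 * s ^ 4 ∧
    ((s + 1) * ((s + A - 5) * (s * (s - 1) * (s - 2) * (s - 3))) +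
        (2 * s + A - 2) * (s ^ 3 * (s + A - 5)) +
        (W3 s a A l + (3 * s + a - 3) + l) * (s ^ 2 * (s + A - 5))) ≤ 3 * s ^ 6 ∧
    ((2 * s + A - 2) * (s ^ 4 * (s + A - 6)) +
        (W3 s a A l + (3 * s + a - 3) + l) * (s ^ 3 * (s + A - 6))) ≤ s ^ 8 ∧
    ((2 * s + A - 2) * ((s + 1) * s ^ 5 * (s + A - 7)) +
        (W3 s a A l + (3 * s + a - 3) + l) * (s ^ 4 * (s + A - 7))) ≤ s ^ 10 ∧
    ((W3 s a A l + (3 * s + a - 3) + l) * ((s + 1) * s ^ 5 * (s + A - 8))) ≤ s ^ 12 := by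
  obtain ⟨t, ht, ht0⟩ : ∃ t : ℤ, s = 80 + t ∧ 0 ≤ t := ⟨s - 80, by ring, by linarith⟩
  unfold W3
  rcases h with ⟨rfl, rfl, rfl⟩ | ⟨rfl, rfl, rfl⟩
  · subst ht
    refine ⟨?_, ?_, ?_, ?_, ?_, ?_⟩ <;> rw [← sub_nonneg] <;> ring_nf <;> positivity
  · subst ht
    refine ⟨?_, ?_, ?_, ?_, ?_, ?_⟩ <;> rw [← sub_nonneg] <;> ring_nf <;> positivity

theorem eva_TT_le (hPOL : T_POL) (hLST : T_LST) (m s l a A : ℕ) (hs : 10 ≤ s) (ha : 20 ≤ a)
    (hA : A = a + 1 + l) :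
    eva m (TT s a l 3 5 1) A ≤ -(s * nu m (A - 2)) +
      (-((s + A - 3) * (s * (2 * s + a - 2)) + l * ((s + a - 2 + l) * s)) +
        (2 * s + A - 2) * (s * (s + A - 3)) - (s * (2 * s + a - 2) + l * s) +
        s * (2 * s + A - 3)) * nu m (A - 3) +
      ((s + A - 4) * (s * (s - 1) * (s - 2)) + (2 * s + A - 2) * (s ^ 2 * (s + A - 4)) +
        (W3 s a A l + (3 * s + a - 3) + l) * (s * (s + A - 4)) + s * W3 s a A l) *
          nu m (A - 4) +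
      ((s + 1) * ((s + A - 5) * (s * (s - 1) * (s - 2) * (s - 3))) +
        (2 * s + A - 2) * (s ^ 3 * (s + A - 5)) +
        (W3 s a A l + (3 * s + a - 3) + l) * (s ^ 2 * (s + A - 5))) * nu m (A - 5) +
      ((2 * s + A - 2) * (s ^ 4 * (s + A - 6)) +
        (W3 s a A l + (3 * s + a - 3) + l) * (s ^ 3 * (s + A - 6))) * nu m (A - 6) +
      ((2 * s + A - 2) * ((s + 1) * s ^ 5 * (s + A - 7)) +
        (W3 s a A l + (3 * s + a - 3) + l) * (s ^ 4 * (s + A - 7))) * nu m (A - 7) +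
      ((W3 s a A l + (3 * s + a - 3) + l) * ((s + 1) * s ^ 5 * (s + A - 8))) * nu m (A - 8) := by
  have h1 := cup_le hPOL hLST m s l a A hs ha hA
  have h2 := cgain_ge hPOL hLST m s l a A hs ha hA
  have hAz : (A : ℤ) = a + 1 + l := by exact_mod_cast hA
  have e1 : eva m (TT s a l 3 5 1) A = eva m (CUP s a l 3 5 1) A -
      (a + s + l) * nu m (A - 1) - eva m (CGAIN s a l 3 5 1) (A - 1) := by
    unfold TT
    rw [hLST.1, hLST.1, hLST.2.1, hLST.2.2.1]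
    simp only [eva]
    push_cast
    ring
  rw [e1]
  have g2 : SS m s (A - 2) = s * (s + A - 3) * nu m (A - 3) + s ^ 2 * (s + A - 4) * nu m (A - 4) +
      s ^ 3 * (s + A - 5) * nu m (A - 5) + s ^ 4 * (s + A - 6) * nu m (A - 6) +
      (s + 1) * s ^ 5 * (s + A - 7) * nu m (A - 7) := by
    unfold SS
    rw [show A - 2 - 1 = A - 3 by omega, show A - 2 - 2 = A - 4 by omega,
      show A - 2 - 3 = A - 5 by omega, show A - 2 - 4 = A - 6 by omega,
      show A - 2 - 5 = A - 7 by omega]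
    push_cast [Nat.cast_sub (show 2 ≤ A by omega)]
    ring
  have g3 : SS m s (A - 3) = s * (s + A - 4) * nu m (A - 4) + s ^ 2 * (s + A - 5) * nu m (A - 5) +
      s ^ 3 * (s + A - 6) * nu m (A - 6) + s ^ 4 * (s + A - 7) * nu m (A - 7) +
      (s + 1) * s ^ 5 * (s + A - 8) * nu m (A - 8) := by
    unfold SS
    rw [show A - 3 - 1 = A - 4 by omega, show A - 3 - 2 = A - 5 by omega,
      show A - 3 - 3 = A - 6 by omega, show A - 3 - 4 = A - 7 by omega,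
      show A - 3 - 5 = A - 8 by omega]
    push_cast [Nat.cast_sub (show 3 ≤ A by omega)]
    ring
  rw [g2, g3] at h1 h2
  unfold W3
  have e2 : ((s : ℤ) + A - 1) * nu m (A - 1) = (a + s + l) * nu m (A - 1) := by
    rw [hAz]; ring
  rw [e2] at h1
  refine le_trans (sub_le_sub (sub_le_sub_right h1 _) h2) (le_of_eq ?_)
  ring

theorem final_ineq (s a A l x2 x3 x4 x5 x6 x7 x8 : ℤ) (hs : 80 ≤ s)
    (h : (a = s + 1 ∧ A = s + 2 ∧ l = 0) ∨ (a = s - 1 ∧ A = s + 1 ∧ l = 1))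
    (p2 : 0 < x2) (n3 : 0 ≤ x3) (n4 : 0 ≤ x4) (n5 : 0 ≤ x5) (n6 : 0 ≤ x6) (n7 : 0 ≤ x7)
    (n8 : 0 ≤ x8) (d3 : s ^ 2 * x3 ≤ x2) (d4 : s ^ 4 * x4 ≤ x2) (d5 : s ^ 6 * x5 ≤ x2)
    (d6 : s ^ 8 * x6 ≤ x2) (d7 : s ^ 10 * x7 ≤ x2) (d8 : s ^ 12 * x8 ≤ x2) :
    -(s * x2) +
      (-((s + A - 3) * (s * (2 * s + a - 2)) + l * ((s + a - 2 + l) * s)) +
        (2 * s + A - 2) * (s * (s + A - 3)) - (s * (2 * s + a - 2) + l * s) +
        s * (2 * s + A - 3)) * x3 +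
      ((s + A - 4) * (s * (s - 1) * (s - 2)) + (2 * s + A - 2) * (s ^ 2 * (s + A - 4)) +
        (W3 s a A l + (3 * s + a - 3) + l) * (s * (s + A - 4)) + s * W3 s a A l) * x4 +
      ((s + 1) * ((s + A - 5) * (s * (s - 1) * (s - 2) * (s - 3))) +
        (2 * s + A - 2) * (s ^ 3 * (s + A - 5)) +
        (W3 s a A l + (3 * s + a - 3) + l) * (s ^ 2 * (s + A - 5))) * x5 +
      ((2 * s + A - 2) * (s ^ 4 * (s + A - 6)) +
        (W3 s a A l + (3 * s + a - 3) + l) * (s ^ 3 * (s + A - 6))) * x6 +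
      ((2 * s + A - 2) * ((s + 1) * s ^ 5 * (s + A - 7)) +
        (W3 s a A l + (3 * s + a - 3) + l) * (s ^ 4 * (s + A - 7))) * x7 +
      ((W3 s a A l + (3 * s + a - 3) + l) * ((s + 1) * s ^ 5 * (s + A - 8))) * x8 < 0 := by
  obtain ⟨c3, c4, c5, c6, c7, c8⟩ := coefs s a A l hs h
  have e3 := mul_le_mul_of_nonneg_right c3 n3
  have e4 := mul_le_mul_of_nonneg_right c4 n4
  have e5 := mul_le_mul_of_nonneg_right c5 n5
  have e6 := mul_le_mul_of_nonneg_right c6 n6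
  have e7 := mul_le_mul_of_nonneg_right c7 n7
  have e8 := mul_le_mul_of_nonneg_right c8 n8
  have e2 : 80 * x2 ≤ s * x2 := mul_le_mul_of_nonneg_right hs p2.le
  have f3 : 2 * s ^ 2 * x3 ≤ 2 * x2 := by linarith
  have f4 : 42 * s ^ 4 * x4 ≤ 42 * x2 := by linarith
  have f5 : 3 * s ^ 6 * x5 ≤ 3 * x2 := by linarith
  linarith

theorem uni (hPOL : T_POL) (hLST : T_LST) : T_UNI := by
  intro s hs m hm
  refine ⟨3, 5, 1, by norm_num, ?_⟩
  have hsz : (80 : ℤ) ≤ s := by exact_mod_cast hs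
  have hmz : (s : ℤ) * (s + 2) ≤ 2 * m := by exact_mod_cast hm
  have hms : s + 10 ≤ m := by nlinarith
  have chain : ∀ A w : ℕ, A ≤ s + 2 → 8 ≤ A → 2 ≤ w → w + 1 ≤ A →
      (s : ℤ) ^ 2 * nu m (A - (w + 1)) ≤ nu m (A - w) := by
    intro A w hA hA8 hw hwA
    have e : A - w = A - (w + 1) + 1 := by omega
    rw [e, nu_succ m _ (by omega)]
    apply mul_le_mul_of_nonneg_right _ (nu_nonneg _ _)
    have hc : ((A - (w + 1) : ℕ) : ℤ) = A - (w + 1) := by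
      push_cast [Nat.cast_sub hwA]; ring
    rw [hc]
    have hAz : (A : ℤ) ≤ s + 2 := by exact_mod_cast hA
    have hwz : (2 : ℤ) ≤ w := by exact_mod_cast hw
    nlinarith
  have main : ∀ A : ℕ, A ≤ s + 2 → 20 ≤ A →
      (s : ℤ) ^ 2 * nu m (A - 3) ≤ nu m (A - 2) ∧ (s : ℤ) ^ 4 * nu m (A - 4) ≤ nu m (A - 2) ∧
      (s : ℤ) ^ 6 * nu m (A - 5) ≤ nu m (A - 2) ∧ (s : ℤ) ^ 8 * nu m (A - 6) ≤ nu m (A - 2) ∧
      (s : ℤ) ^ 10 * nu m (A - 7) ≤ nu m (A - 2) ∧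
      (s : ℤ) ^ 12 * nu m (A - 8) ≤ nu m (A - 2) := by
    intro A hA hA8
    have d3 : (s : ℤ) ^ 2 * nu m (A - 3) ≤ nu m (A - 2) :=
      chain A 2 hA (by omega) (by norm_num) (by omega)
    have d4 : (s : ℤ) ^ 4 * nu m (A - 4) ≤ nu m (A - 2) := by
      refine le_trans (le_of_eq ?_) ((mul_le_mul_of_nonneg_left
        (chain A 3 hA (by omega) (by norm_num) (by omega))
        (show (0 : ℤ) ≤ (s : ℤ) ^ 2 by positivity)).trans d3)
      ring
    have d5 : (s : ℤ) ^ 6 * nu m (A - 5) ≤ nu m (A - 2) := by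
      refine le_trans (le_of_eq ?_) ((mul_le_mul_of_nonneg_left
        (chain A 4 hA (by omega) (by norm_num) (by omega))
        (show (0 : ℤ) ≤ (s : ℤ) ^ 4 by positivity)).trans d4)
      ring
    have d6 : (s : ℤ) ^ 8 * nu m (A - 6) ≤ nu m (A - 2) := by
      refine le_trans (le_of_eq ?_) ((mul_le_mul_of_nonneg_left
        (chain A 5 hA (by omega) (by norm_num) (by omega))
        (show (0 : ℤ) ≤ (s : ℤ) ^ 6 by positivity)).trans d5)
      ring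
    have d7 : (s : ℤ) ^ 10 * nu m (A - 7) ≤ nu m (A - 2) := by
      refine le_trans (le_of_eq ?_) ((mul_le_mul_of_nonneg_left
        (chain A 6 hA (by omega) (by norm_num) (by omega))
        (show (0 : ℤ) ≤ (s : ℤ) ^ 8 by positivity)).trans d6)
      ring
    have d8 : (s : ℤ) ^ 12 * nu m (A - 8) ≤ nu m (A - 2) := by
      refine le_trans (le_of_eq ?_) ((mul_le_mul_of_nonneg_left
        (chain A 7 hA (by omega) (by norm_num) (by omega))
        (show (0 : ℤ) ≤ (s : ℤ) ^ 10 by positivity)).trans d7)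
      ring
    exact ⟨d3, d4, d5, d6, d7, d8⟩
  constructor
  · have h := eva_TT_le hPOL hLST m s 0 (s + 1) (s + 2) (by omega) (by omega) (by omega)
    obtain ⟨d3, d4, d5, d6, d7, d8⟩ := main (s + 2) le_rfl (by omega)
    refine lt_of_le_of_lt h (final_ineq s _ _ _ _ _ _ _ _ _ _ hsz (Or.inl ?_)
      (nu_pos m _ (by omega)) (nu_nonneg _ _) (nu_nonneg _ _) (nu_nonneg _ _) (nu_nonneg _ _)
      (nu_nonneg _ _) (nu_nonneg _ _) d3 d4 d5 d6 d7 d8)
    push_cast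
    exact ⟨rfl, rfl, trivial⟩
  · have h := eva_TT_le hPOL hLST m s 1 (s - 1) (s + 1) (by omega) (by omega) (by omega)
    obtain ⟨d3, d4, d5, d6, d7, d8⟩ := main (s + 1) (by omega) (by omega)
    refine lt_of_le_of_lt h (final_ineq s _ _ _ _ _ _ _ _ _ _ hsz (Or.inr ?_)
      (nu_pos m _ (by omega)) (nu_nonneg _ _) (nu_nonneg _ _) (nu_nonneg _ _) (nu_nonneg _ _)
      (nu_nonneg _ _) (nu_nonneg _ _) d3 d4 d5 d6 d7 d8)
    push_cast [Nat.cast_sub (show 1 ≤ s by omega)]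
    exact ⟨rfl, rfl, trivial⟩

end Pool.Agent.H71.GW
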